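import Mathlib

namespace Pool.Agent.Results.MP_cc6bdf_an.ConstantHalf

open Set Filter Topology

/-- `M_n`: real functions, continuous on `[0,1]`, with at most `n` intervals of monotonicity. -/
def Mon (n : ℕ) : Set (ℝ → ℝ) :=
  {φ | ContinuousOn φ (Icc 0 1) ∧ ∃ k : ℕ, k ≤ n ∧ ∃ t : Fin (k + 1) → ℝ, StrictMono t ∧
    t 0 = 0 ∧ t (Fin.last k) = 1 ∧ ∀ i : Fin k,
      MonotoneOn φ (Icc (t i.castSucc) (t i.succ)) ∨ AntitoneOn φ (Icc (t i.castSucc) (t i.succ))}

/-- `M_n^2`: the plane curves whose two coordinate functions are in `M_n`. -/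
def Curves (n : ℕ) : Set (Set (ℝ × ℝ)) :=
  {γ | ∃ φ ∈ Mon n, ∃ ψ ∈ Mon n, γ = (fun t => (φ t, ψ t)) '' Icc 0 1}

/-- `Z_D` for `D = [a,b] × [a,b]`. -/
def ZD (a b : ℝ) : Set (Set (ℝ × ℝ)) :=
  {F | F.Nonempty ∧ IsCompact F ∧ IsConnected F ∧ F ⊆ Icc a b ×ˢ Icc a b}

/-- `E(M_n^2; F)`; the distance on `ℝ × ℝ` is the maximum metric, so `Metric.hausdorffDist` is
the Hausdorff distance `r`. -/
noncomputable def E (n : ℕ) (F : Set (ℝ × ℝ)) : ℝ :=
  sInf ((fun γ => Metric.hausdorffDist F γ) '' Curves n)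

/-- `E(M_n^2; Z_D)`. -/
noncomputable def EZ (n : ℕ) (a b : ℝ) : ℝ := sSup ((fun F => E n F) '' ZD a b)

/-- The constant `c_5` (computed with the square `[a,b] × [a,b]`). -/
noncomputable def c5 (a b : ℝ) : ℝ :=
  limsup (fun n : ℕ => Real.sqrt n * EZ n a b / (b - a)) atTop

/-! ### Tours of grid sets -/

/-- A state: a cell and a current direction for each of the two axes. -/
abbrev St := (Bool → ℤ) × (Bool → Bool)

def sg (σ : Bool) : ℤ := if σ then 1 else -1

lemma sg_not (σ : Bool) : sg (!σ) = - sg σ := by cases σ <;> simp [sg]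

def mv (c : Bool) (u : Bool → ℤ) (σ : Bool) : Bool → ℤ := Function.update u c (u c + sg σ)

def fp (c : Bool) (d : Bool → Bool) : Bool → Bool := Function.update d c (!d c)

lemma mv_back (c : Bool) (u : Bool → ℤ) (σ : Bool) : mv c (mv c u σ) (!σ) = u := by
  funext x
  by_cases h : x = c
  · subst h
    simp [mv, sg_not]
  · simp [mv, Function.update_of_ne h]

lemma mv_ne (c : Bool) (u : Bool → ℤ) (σ : Bool) : mv c u σ ≠ u := by
  intro h
  have := congrFun h c
  simp only [mv, Function.update_self] at this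
  cases σ <;> simp [sg] at this

lemma fp_fp (c : Bool) (d : Bool → Bool) : fp c (fp c d) = d := by
  funext x
  by_cases h : x = c
  · subst h
    simp [fp]
  · simp [fp, Function.update_of_ne h]

@[simp] lemma fp_self (c : Bool) (d : Bool → Bool) : fp c d c = !d c := by simp [fp]

lemma fp_ne {c c' : Bool} (h : c' ≠ c) (d : Bool → Bool) : fp c d c' = d c' := by
  simp [fp, Function.update_of_ne h]

/-- One step of a tour: a change of direction on the spot, or a move to an adjacent cell in the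
current direction of one of the axes. -/
def Step (adj : (Bool → ℤ) → (Bool → ℤ) → Prop) (s s' : St) : Prop :=
  (∃ c, s'.1 = s.1 ∧ s'.2 = fp c s.2) ∨
    (∃ c, s'.2 = s.2 ∧ s'.1 = mv c s.1 (s.2 c) ∧ adj s.1 s'.1)

/-- The number of direction changes for the axis `c`. -/
def fl (c : Bool) : List St → ℕ
  | [] => 0
  | [_] => 0
  | a :: b :: l => (if a.2 c = b.2 c then 0 else 1) + fl c (b :: l)

lemma fl_split (c : Bool) (l1 : List St) (x : St) (l2 : List St) :
    fl c (l1 ++ x :: l2) = fl c (l1 ++ [x]) + fl c (x :: l2) := by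
  induction l1 with
  | nil => simp [fl]
  | cons a l ih =>
    cases l with
    | nil => simp [fl]
    | cons b l =>
      simp only [List.cons_append, fl] at ih ⊢
      rw [ih]
      ring

lemma con_split (s s' : St) (l1 : List St) (x : St) (l2 : List St) :
    [s, s'] <:+: l1 ++ x :: l2 ↔ [s, s'] <:+: l1 ++ [x] ∨ [s, s'] <:+: x :: l2 := by
  induction l1 with
  | nil =>
    simp only [List.nil_append]
    constructor
    · intro h
      exact Or.inr h
    · rintro (h | h)
      · exfalso
        have := h.length_le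
        simp at this
      · exact h
  | cons a l ih =>
    rw [List.cons_append, List.infix_cons_iff, ih, List.cons_append]
    have : [s, s'] <+: a :: (l ++ x :: l2) ↔ [s, s'] <+: a :: (l ++ [x]) := by
      cases l with
      | nil => simp
      | cons b l => simp
    have h2 : [s, s'] <:+: a :: (l ++ [x]) ↔
        [s, s'] <+: a :: (l ++ [x]) ∨ [s, s'] <:+: l ++ [x] := List.infix_cons_iff
    rw [this, h2, or_assoc]

lemma con_a {s s' : St} {l1 l2 : List St} {x : St} (m : List St)
    (h : [s, s'] <:+: l1 ++ x :: l2) : [s, s'] <:+: l1 ++ x :: (m ++ x :: l2) := by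
  rw [con_split] at h
  rcases h with h | h
  · exact h.trans ⟨[], m ++ x :: l2, by simp⟩
  · exact h.trans ⟨l1 ++ x :: m, [], by simp⟩

lemma con_b {s s' : St} {l1 l2 : List St} {a b : St} (m : List St)
    (h : [s, s'] <:+: l1 ++ a :: b :: l2) (hne : ¬ (s = a ∧ s' = b)) :
    [s, s'] <:+: l1 ++ a :: (m ++ b :: l2) := by
  rw [con_split] at h
  rcases h with h | h
  · exact h.trans ⟨[], m ++ b :: l2, by simp⟩
  · rw [List.infix_cons_iff] at h
    rcases h with h | h
    · exfalso
      simp only [List.cons_prefix_cons, List.nil_prefix, and_true] at h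
      exact hne h
    · exact h.trans ⟨l1 ++ a :: m, [], by simp⟩

/-- The invariant of the construction of the tour. -/
structure Inv (adj : (Bool → ℤ) → (Bool → ℤ) → Prop) (S : Finset (Bool → ℤ)) (l : List St)
    (A : Bool → Finset (Bool → ℤ)) : Prop where
  chain : l.IsChain (Step adj)
  cover : ∀ v ∈ S, ∃ s ∈ l, s.1 = v
  mem : ∀ s ∈ l, s.1 ∈ S
  sub : ∀ c, A c ⊆ S
  flc : ∀ c, fl c l ≤ (A c).card
  turn : ∀ c, ∀ v ∈ S, ∀ σ, mv c v σ ∉ S → v ∉ A c ∨
    ∃ d : Bool → Bool, d c = σ ∧ [(v, d), (v, fp c d)] <:+: l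

lemma inv_block (adj : (Bool → ℤ) → (Bool → ℤ) → Prop)
    {S : Finset (Bool → ℤ)} {l : List St} {A : Bool → Finset (Bool → ℤ)} (h : Inv adj S l A)
    {u : Bool → ℤ} (hu : u ∈ S) {c σ : Bool} (hw : mv c u σ ∉ S) (huA : u ∉ A c)
    {l1 l2 : List St} {d : Bool → Bool} (hl' : l = l1 ++ (u, d) :: l2) (m : List St)
    (hm1 : List.IsChain (Step adj) ((u, d) :: (m ++ [(u, d)])))
    (hm2 : ∀ s ∈ m, s.1 = u ∨ s.1 = mv c u σ) (hm3 : ∃ s ∈ m, s.1 = mv c u σ)
    (hm4 : fl c ((u, d) :: (m ++ [(u, d)])) = 2)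
    (hm5 : ∀ c' ≠ c, fl c' ((u, d) :: (m ++ [(u, d)])) = 0)
    (hm6 : ∃ e : Bool → Bool, e c = σ ∧
      [(mv c u σ, e), (mv c u σ, fp c e)] <:+: (u, d) :: (m ++ [(u, d)]))
    (hm7 : ∃ e : Bool → Bool, e c = (!σ) ∧ [(u, e), (u, fp c e)] <:+: (u, d) :: (m ++ [(u, d)])) :
    ∃ l' A', Inv adj (insert (mv c u σ) S) l' A' := by
  classical
  set w := mv c u σ with hwdef
  have hback : mv c w (!σ) = u := mv_back c u σ
  have hwu : w ≠ u := mv_ne c u σ
  refine ⟨l1 ++ (u, d) :: (m ++ (u, d) :: l2),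
    Function.update A c (insert u (insert w (A c))), ?_⟩
  have hch := h.chain
  rw [hl', List.isChain_split] at hch
  have hsplit : ∀ s s', [s, s'] <:+: (u, d) :: (m ++ [(u, d)]) →
      [s, s'] <:+: l1 ++ (u, d) :: (m ++ (u, d) :: l2) := by
    intro s s' hs
    exact hs.trans ⟨l1, l2, by simp⟩
  constructor
  · rw [List.isChain_split]
    refine ⟨hch.1, ?_⟩
    have : (u, d) :: (m ++ (u, d) :: l2) = ((u, d) :: m) ++ (u, d) :: l2 := by simp
    rw [this, List.isChain_split]
    exact ⟨by simpa using hm1, hch.2⟩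
  · intro v hv
    rw [Finset.mem_insert] at hv
    rcases hv with rfl | hv
    · obtain ⟨s, hs, hsw⟩ := hm3
      exact ⟨s, by simp [hs], hsw⟩
    · obtain ⟨s, hs, hsv⟩ := h.cover v hv
      refine ⟨s, ?_, hsv⟩
      rw [hl'] at hs
      simp only [List.mem_append, List.mem_cons] at hs ⊢
      tauto
  · intro s hs
    simp only [List.mem_append, List.mem_cons] at hs
    rw [Finset.mem_insert]
    rcases hs with hs | hs | hs | hs | hs
    · right
      exact h.mem s (by rw [hl']; simp [hs])
    · right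
      rw [hs]
      exact hu
    · rcases hm2 s hs with h1 | h1
      · right
        rw [h1]
        exact hu
      · left
        exact h1
    · right
      rw [hs]
      exact hu
    · right
      exact h.mem s (by rw [hl']; simp [hs])
  · intro c'
    by_cases hc : c' = c
    · subst hc
      rw [Function.update_self]
      intro x hx
      rw [Finset.mem_insert, Finset.mem_insert] at hx
      rw [Finset.mem_insert]
      rcases hx with rfl | rfl | hx
      · exact Or.inr hu
      · exact Or.inl rfl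
      · exact Or.inr (h.sub c' hx)
    · rw [Function.update_of_ne hc]
      exact (h.sub c').trans (Finset.subset_insert _ _)
  · intro c'
    have h3 := h.flc c'
    rw [hl', fl_split] at h3
    have : (u, d) :: (m ++ (u, d) :: l2) = ((u, d) :: m) ++ (u, d) :: l2 := by simp
    have h9 : ((u, d) :: m) ++ [(u, d)] = (u, d) :: (m ++ [(u, d)]) := by simp
    rw [fl_split c' l1, this, fl_split c' ((u, d) :: m), h9]
    by_cases hc : c' = c
    · subst hc
      rw [Function.update_self, hm4, Finset.card_insert_of_notMem, Finset.card_insert_of_notMem]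
      · omega
      · exact fun h' => hw (h.sub c' h')
      · rw [Finset.mem_insert]
        push Not
        exact ⟨hwu.symm, huA⟩
    · rw [Function.update_of_ne hc, hm5 c' hc]
      omega
  · intro c' v hv σ' hσ'
    rw [Finset.mem_insert] at hv
    have hσ'' : mv c' v σ' ∉ S := fun h => hσ' (Finset.mem_insert_of_mem h)
    rcases hv with rfl | hv
    · by_cases hc : c' = c
      · subst hc
        right
        have hσσ : σ' = σ := by
          by_contra hne
          have : σ' = !σ := by cases σ <;> cases σ' <;> simp_all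
          rw [this, hback] at hσ''
          exact hσ'' hu
        obtain ⟨e, he, he2⟩ := hm6
        exact ⟨e, by rw [he, hσσ], hsplit _ _ he2⟩
      · left
        rw [Function.update_of_ne hc]
        exact fun h' => hw (h.sub c' h')
    · have hvw : v ≠ w := by
        rintro rfl
        exact hw hv
      by_cases hvu : v = u ∧ c' = c
      · obtain ⟨rfl, rfl⟩ := hvu
        right
        have hσσ : σ' = !σ := by
          by_contra hne
          have : σ' = σ := by cases σ <;> cases σ' <;> simp_all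
          rw [this] at hσ'
          exact hσ' (Finset.mem_insert_self _ _)
        obtain ⟨e, he, he2⟩ := hm7
        exact ⟨e, by rw [he, hσσ], hsplit _ _ he2⟩
      · rcases h.turn c' v hv σ' hσ'' with h5 | ⟨e, he, h6⟩
        · left
          by_cases hc : c' = c
          · subst hc
            rw [Function.update_self, Finset.mem_insert, Finset.mem_insert]
            push Not
            exact ⟨fun h' => hvu ⟨h', rfl⟩, hvw, h5⟩
          · rw [Function.update_of_ne hc]
            exact h5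
        · right
          refine ⟨e, he, ?_⟩
          rw [hl'] at h6
          exact con_a _ h6

lemma inv_insert (adj : (Bool → ℤ) → (Bool → ℤ) → Prop) (hsymm : ∀ u w, adj u w → adj w u)
    {S : Finset (Bool → ℤ)} {l : List St} {A : Bool → Finset (Bool → ℤ)} (h : Inv adj S l A)
    {u : Bool → ℤ} (hu : u ∈ S) {c σ : Bool} (hw : mv c u σ ∉ S) (hadj : adj u (mv c u σ)) :
    ∃ l' A', Inv adj (insert (mv c u σ) S) l' A' := by
  classical
  set w := mv c u σ with hwdef
  have hback : mv c w (!σ) = u := mv_back c u σ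
  have hwu : w ≠ u := mv_ne c u σ
  by_cases huA : u ∈ A c
  · rcases h.turn c u hu σ hw with h1 | ⟨d, hd, l1, l2, hl⟩
    · exact absurd huA h1
    · have hl' : l = l1 ++ (u, d) :: (u, fp c d) :: l2 := by rw [← hl]; simp
      refine ⟨l1 ++ (u, d) :: ([(w, d), (w, fp c d)] ++ (u, fp c d) :: l2),
        Function.update A c (insert w (A c)), ?_⟩
      have hch := h.chain
      rw [hl', List.isChain_split] at hch
      constructor
      · rw [List.isChain_split]
        refine ⟨hch.1, ?_⟩
        have h2 := hch.2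
        rw [List.isChain_cons_cons] at h2
        simp only [List.cons_append, List.nil_append]
        rw [List.isChain_cons_cons, List.isChain_cons_cons, List.isChain_cons_cons]
        refine ⟨Or.inr ⟨c, rfl, ?_, hadj⟩, Or.inl ⟨c, rfl, rfl⟩, Or.inr ⟨c, rfl, ?_, hsymm _ _ hadj⟩,
          h2.2⟩
        · show w = mv c u (d c)
          rw [hd]
        · show u = mv c w (fp c d c)
          rw [fp_self, hd, hback]
      · intro v hv
        rw [Finset.mem_insert] at hv
        rcases hv with rfl | hv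
        · exact ⟨(w, d), by simp, rfl⟩
        · obtain ⟨s, hs, hsv⟩ := h.cover v hv
          refine ⟨s, ?_, hsv⟩
          rw [hl'] at hs
          simp only [List.mem_append, List.mem_cons] at hs ⊢
          tauto
      · intro s hs
        simp only [List.mem_append, List.mem_cons, List.not_mem_nil, or_false] at hs
        rw [Finset.mem_insert]
        rcases hs with hs | hs | (hs | hs) | hs | hs
        · right
          exact h.mem s (by rw [hl']; simp [hs])
        · right
          rw [hs]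
          exact hu
        · left
          rw [hs]
        · left
          rw [hs]
        · right
          rw [hs]
          exact hu
        · right
          exact h.mem s (by rw [hl']; simp [hs])
      · intro c'
        by_cases hc : c' = c
        · subst hc
          rw [Function.update_self]
          exact Finset.insert_subset_insert _ (h.sub c')
        · rw [Function.update_of_ne hc]
          exact (h.sub c').trans (Finset.subset_insert _ _)
      · intro c'
        have h3 := h.flc c'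
        rw [hl', fl_split] at h3
        rw [fl_split]
        by_cases hc : c' = c
        · subst hc
          rw [Function.update_self]
          have h4 : (A c').card ≤ (insert w (A c')).card :=
            Finset.card_le_card (Finset.subset_insert _ _)
          simp only [List.cons_append, List.nil_append, fl] at h3 ⊢
          simp only [fp_self] at h3 ⊢
          simp only [if_true, zero_add] at h3 ⊢
          simpa using h3.trans h4
        · rw [Function.update_of_ne hc]
          simp only [List.cons_append, List.nil_append, fl] at h3 ⊢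
          simp only [fp_ne hc] at h3 ⊢
          simpa using h3
      · intro c' v hv σ' hσ'
        rw [Finset.mem_insert] at hv
        have hσ'' : mv c' v σ' ∉ S := fun h => hσ' (Finset.mem_insert_of_mem h)
        rcases hv with rfl | hv
        · by_cases hc : c' = c
          · subst hc
            right
            have hσσ : σ' = σ := by
              by_contra hne
              have : σ' = !σ := by cases σ <;> cases σ' <;> simp_all
              rw [this, hback] at hσ''
              exact hσ'' hu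
            refine ⟨d, by rw [hd, hσσ], l1 ++ [(u, d)], (u, fp c' d) :: l2, by simp⟩
          · left
            rw [Function.update_of_ne hc]
            exact fun h' => hw (h.sub c' h')
        · have hvw : v ≠ w := by
            rintro rfl
            exact hw hv
          rcases h.turn c' v hv σ' hσ'' with h5 | ⟨e, he, h6⟩
          · left
            by_cases hc : c' = c
            · subst hc
              rw [Function.update_self, Finset.mem_insert]
              push Not
              exact ⟨hvw, h5⟩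
            · rw [Function.update_of_ne hc]
              exact h5
          · right
            refine ⟨e, he, ?_⟩
            rw [hl'] at h6
            refine con_b _ h6 ?_
            rintro ⟨h7, h8⟩
            simp only [Prod.mk.injEq] at h7 h8
            obtain ⟨rfl, rfl⟩ := h7
            by_cases hc : c' = c
            · subst hc
              apply hσ'
              rw [← he, hd]
              exact Finset.mem_insert_self _ _
            · have := congrFun h8.2 c
              rw [fp_self, fp_ne (Ne.symm hc)] at this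
              cases hq : e c <;> simp [hq] at this
  · obtain ⟨s, hs, hsu⟩ := h.cover u hu
    obtain ⟨l1, l2, hl'⟩ := List.append_of_mem hs
    obtain ⟨u', d⟩ := s
    simp only at hsu
    subst hsu
    by_cases hdc : d c = σ
    · refine inv_block adj h hu hw huA hl' [(w, d), (w, fp c d), (u', fp c d)] ?_ ?_ ?_ ?_ ?_ ?_ ?_
      · simp only [List.cons_append, List.nil_append]
        rw [List.isChain_cons_cons, List.isChain_cons_cons, List.isChain_cons_cons,
          List.isChain_cons_cons]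
        refine ⟨Or.inr ⟨c, rfl, ?_, hadj⟩, Or.inl ⟨c, rfl, rfl⟩,
          Or.inr ⟨c, rfl, ?_, hsymm _ _ hadj⟩, Or.inl ⟨c, rfl, (fp_fp c d).symm⟩, by simp⟩
        · show w = mv c u' (d c)
          rw [hdc]
        · show u' = mv c w (fp c d c)
          rw [fp_self, hdc, hback]
      · intro s hs
        simp only [List.mem_cons, List.not_mem_nil, or_false] at hs
        rcases hs with rfl | rfl | rfl <;> simp [hwdef]
      · exact ⟨(w, d), by simp, rfl⟩
      · simp only [List.cons_append, List.nil_append, fl, fp_self]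
        simp
      · intro c' hc'
        simp only [List.cons_append, List.nil_append, fl, fp_ne hc']
        simp
      · exact ⟨d, hdc, [(u', d)], [(u', fp c d), (u', d)], by simp [hwdef]⟩
      · exact ⟨fp c d, by rw [fp_self, hdc], [(u', d), (w, d), (w, fp c d)], [], by
          simp [fp_fp]⟩
    · have hdc' : d c = !σ := by cases hq : d c <;> cases σ <;> simp_all
      refine inv_block adj h hu hw huA hl' [(u', fp c d), (w, fp c d), (w, d)] ?_ ?_ ?_ ?_ ?_ ?_ ?_
      · simp only [List.cons_append, List.nil_append]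
        rw [List.isChain_cons_cons, List.isChain_cons_cons, List.isChain_cons_cons,
          List.isChain_cons_cons]
        refine ⟨Or.inl ⟨c, rfl, rfl⟩, Or.inr ⟨c, rfl, ?_, hadj⟩,
          Or.inl ⟨c, rfl, (fp_fp c d).symm⟩, Or.inr ⟨c, rfl, ?_, hsymm _ _ hadj⟩, by simp⟩
        · show w = mv c u' (fp c d c)
          rw [fp_self, hdc', Bool.not_not]
        · show u' = mv c w (d c)
          rw [hdc', hback]
      · intro s hs
        simp only [List.mem_cons, List.not_mem_nil, or_false] at hs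
        rcases hs with rfl | rfl | rfl <;> simp [hwdef]
      · exact ⟨(w, d), by simp, rfl⟩
      · simp only [List.cons_append, List.nil_append, fl, fp_self]
        simp
      · intro c' hc'
        simp only [List.cons_append, List.nil_append, fl, fp_ne hc']
        simp
      · exact ⟨fp c d, by rw [fp_self, hdc', Bool.not_not], [(u', d), (u', fp c d)], [(u', d)], by
          simp [hwdef, fp_fp]⟩
      · exact ⟨d, hdc', [], [(w, fp c d), (w, d), (u', d)], by simp⟩

/-- Existence of a tour of a connected set of cells with few direction changes. -/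
lemma exists_tour (adj : (Bool → ℤ) → (Bool → ℤ) → Prop) (hsymm : ∀ u w, adj u w → adj w u)
    (S : Finset (Bool → ℤ)) (hS : S.Nonempty)
    (hconn : ∀ S' ⊆ S, S'.Nonempty → S' ≠ S →
      ∃ u ∈ S', ∃ c σ, mv c u σ ∈ S ∧ mv c u σ ∉ S' ∧ adj u (mv c u σ)) :
    ∃ l : List St, l ≠ [] ∧ l.IsChain (Step adj) ∧ (∀ v ∈ S, ∃ s ∈ l, s.1 = v) ∧
      (∀ s ∈ l, s.1 ∈ S) ∧ ∀ c, fl c l ≤ S.card := by
  classical
  obtain ⟨v0, hv0⟩ := hS
  have key : ∀ k : ℕ, k + 1 ≤ S.card → ∃ S' ⊆ S, S'.card = k + 1 ∧ ∃ l A, Inv adj S' l A := by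
    intro k
    induction k with
    | zero =>
      intro _
      refine ⟨{v0}, by simpa using hv0, by simp, [(v0, fun _ => true)], fun _ => ∅, ?_⟩
      constructor
      · simp
      · intro v hv
        rw [Finset.mem_singleton] at hv
        exact ⟨(v0, fun _ => true), by simp, hv.symm⟩
      · intro s hs
        simp only [List.mem_cons, List.not_mem_nil, or_false] at hs
        rw [hs]
        simp
      · intro c
        simp
      · intro c
        simp [fl]
      · intro c v hv σ _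
        left
        simp
    | succ k ih =>
      intro hk
      obtain ⟨S', hS', hc, l, A, hinv⟩ := ih (by omega)
      have hne : S' ≠ S := by
        rintro rfl
        omega
      obtain ⟨u, hu, c, σ, h1, h2, h3⟩ := hconn S' hS' (by
        rw [← Finset.card_pos]
        omega) hne
      obtain ⟨l', A', hinv'⟩ := inv_insert adj hsymm hinv hu h2 h3
      refine ⟨insert (mv c u σ) S', ?_, ?_, l', A', hinv'⟩
      · exact Finset.insert_subset h1 hS'
      · rw [Finset.card_insert_of_notMem h2, hc]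
  have hpos : 0 < S.card := Finset.card_pos.2 ⟨v0, hv0⟩
  obtain ⟨S', hS', hc, l, A, hinv⟩ := key (S.card - 1) (by omega)
  have : S' = S := Finset.eq_of_subset_of_card_le hS' (by omega)
  subst this
  refine ⟨l, ?_, hinv.chain, hinv.cover, hinv.mem, ?_⟩
  · rintro rfl
    obtain ⟨s, hs, _⟩ := hinv.cover v0 hv0
    simp at hs
  · intro c
    exact (hinv.flc c).trans (Finset.card_le_card (hinv.sub c))

/-! ### Piecewise linear interpolation -/

/-- Interpolation of the sequence `x` on `[0, m]`. -/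
noncomputable def itp (x : ℕ → ℝ) (m : ℕ) (τ : ℝ) : ℝ :=
  x 0 + ∑ k ∈ Finset.range m, (x (k + 1) - x k) * max 0 (min 1 (τ - k))

lemma itp_ge (x : ℕ → ℝ) (m : ℕ) {τ : ℝ} (h : (m : ℝ) ≤ τ) : itp x m τ = x m := by
  unfold itp
  have : ∀ k ∈ Finset.range m, (x (k + 1) - x k) * max 0 (min 1 (τ - k)) = x (k + 1) - x k := by
    intro k hk
    have h1 : (k : ℝ) + 1 ≤ m := by
      have := Finset.mem_range.1 hk
      exact_mod_cast this
    rw [min_eq_left (by linarith), max_eq_right (by norm_num), mul_one]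
  rw [Finset.sum_congr rfl this, Finset.sum_range_sub]
  ring

lemma itp_seg (x : ℕ → ℝ) (m : ℕ) (k : ℕ) (hk : k < m) {τ : ℝ} (h1 : (k : ℝ) ≤ τ)
    (h2 : τ ≤ k + 1) : itp x m τ = x k + (τ - k) * (x (k + 1) - x k) := by
  induction m with
  | zero => omega
  | succ m ih =>
    have e : itp x (m + 1) τ = itp x m τ + (x (m + 1) - x m) * max 0 (min 1 (τ - m)) := by
      unfold itp
      rw [Finset.sum_range_succ]
      ring
    rw [e]
    rcases Nat.lt_succ_iff_lt_or_eq.1 hk with h | h
    · rw [ih h]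
      have : (k : ℝ) + 1 ≤ m := by exact_mod_cast h
      rw [max_eq_left (min_le_of_right_le (by linarith))]
      ring
    · subst h
      rw [itp_ge x k h1, min_eq_right (by linarith), max_eq_right (by linarith)]
      ring

lemma itp_cont (x : ℕ → ℝ) (m : ℕ) : Continuous (itp x m) := by
  unfold itp
  fun_prop

lemma itp_mono (x : ℕ → ℝ) (m : ℕ) {u v : ℝ}
    (h : ∀ k < m, (k : ℝ) < v → u < (k : ℝ) + 1 → x k ≤ x (k + 1)) :
    MonotoneOn (itp x m) (Icc u v) := by
  intro τ hτ τ' hτ' hle
  unfold itp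
  have : ∑ k ∈ Finset.range m, (x (k + 1) - x k) * max 0 (min 1 (τ - k)) ≤
      ∑ k ∈ Finset.range m, (x (k + 1) - x k) * max 0 (min 1 (τ' - k)) := by
    apply Finset.sum_le_sum
    intro k hk
    have hk' := Finset.mem_range.1 hk
    by_cases h1 : (k : ℝ) < v
    · by_cases h2 : u < (k : ℝ) + 1
      · apply mul_le_mul_of_nonneg_left _ (by linarith [h k hk' h1 h2])
        exact max_le_max le_rfl (min_le_min le_rfl (by linarith))
      · have a1 : 1 ≤ τ - k := by linarith [hτ.1]
        have a2 : 1 ≤ τ' - k := by linarith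
        rw [min_eq_left a1, min_eq_left a2]
    · have a1 : τ - k ≤ 0 := by linarith [hτ.2]
      have a2 : τ' - k ≤ 0 := by linarith [hτ'.2]
      rw [max_eq_left (min_le_of_right_le a1), max_eq_left (min_le_of_right_le a2)]
  linarith

lemma itp_anti (x : ℕ → ℝ) (m : ℕ) {u v : ℝ}
    (h : ∀ k < m, (k : ℝ) < v → u < (k : ℝ) + 1 → x (k + 1) ≤ x k) :
    AntitoneOn (itp x m) (Icc u v) := by
  have h1 := itp_mono (fun k => - x k) m (u := u) (v := v) (by
    intro k hk h1 h2
    simpa using h k hk h1 h2)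
  have h2 : ∀ τ, itp (fun k => - x k) m τ = - itp x m τ := by
    intro τ
    unfold itp
    rw [neg_add, ← Finset.sum_neg_distrib]
    congr 1
    apply Finset.sum_congr rfl
    intro k _
    ring
  intro τ hτ τ' hτ' hle
  have := h1 hτ hτ' hle
  rw [h2, h2] at this
  linarith

/-- Membership in `M_n` from a finite set of breakpoints. -/
lemma mon_of_finset {n : ℕ} {φ : ℝ → ℝ} (hφ : ContinuousOn φ (Icc 0 1)) (B : Finset ℝ)
    (h0 : (0 : ℝ) ∈ B) (h1 : (1 : ℝ) ∈ B) (hB : ∀ b ∈ B, b ∈ Icc (0 : ℝ) 1)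
    (hcard : B.card ≤ n + 1)
    (hm : ∀ u ∈ B, ∀ v ∈ B, u < v → (∀ b ∈ B, b ≤ u ∨ v ≤ b) →
      MonotoneOn φ (Icc u v) ∨ AntitoneOn φ (Icc u v)) : φ ∈ Mon n := by
  have hpos : 0 < B.card := Finset.card_pos.2 ⟨0, h0⟩
  obtain ⟨k, hk⟩ := Nat.exists_eq_succ_of_ne_zero hpos.ne'
  have hk' : B.card = k + 1 := hk
  refine ⟨hφ, k, by omega, B.orderEmbOfFin hk', (B.orderEmbOfFin hk').strictMono, ?_, ?_, ?_⟩
  · have h2 : B.orderEmbOfFin hk' 0 ∈ B := Finset.orderEmbOfFin_mem _ _ _
    obtain ⟨j, hj⟩ : (0 : ℝ) ∈ Set.range (B.orderEmbOfFin hk') := by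
      rw [Finset.range_orderEmbOfFin]
      exact h0
    have h3 : B.orderEmbOfFin hk' 0 ≤ B.orderEmbOfFin hk' j :=
      (B.orderEmbOfFin hk').monotone (Fin.zero_le _)
    rw [hj] at h3
    exact le_antisymm h3 (hB _ h2).1
  · have h2 : B.orderEmbOfFin hk' (Fin.last k) ∈ B := Finset.orderEmbOfFin_mem _ _ _
    obtain ⟨j, hj⟩ : (1 : ℝ) ∈ Set.range (B.orderEmbOfFin hk') := by
      rw [Finset.range_orderEmbOfFin]
      exact h1
    have h3 : B.orderEmbOfFin hk' j ≤ B.orderEmbOfFin hk' (Fin.last k) :=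
      (B.orderEmbOfFin hk').monotone (Fin.le_last _)
    rw [hj] at h3
    exact le_antisymm (hB _ h2).2 h3
  · intro i
    apply hm _ (Finset.orderEmbOfFin_mem _ _ _) _ (Finset.orderEmbOfFin_mem _ _ _)
    · exact (B.orderEmbOfFin hk').strictMono (Fin.castSucc_lt_succ)
    · intro b hb
      obtain ⟨j, hj⟩ : b ∈ Set.range (B.orderEmbOfFin hk') := by
        rw [Finset.range_orderEmbOfFin]
        exact hb
      rw [← hj]
      rcases le_or_gt j i.castSucc with h | h
      · left
        exact (B.orderEmbOfFin hk').monotone h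
      · right
        apply (B.orderEmbOfFin hk').monotone
        rw [Fin.le_def]
        rw [Fin.lt_def] at h
        simp only [Fin.val_castSucc, Fin.val_succ] at *
        omega

/-- Breakpoints of a list of states. -/
lemma exists_breaks (c : Bool) (l : List St) : ∃ B : Finset ℕ, B.card ≤ fl c l ∧
    ∀ (k : ℕ) (h : k + 1 < l.length), l[k].2 c ≠ l[k + 1].2 c → k ∈ B := by
  classical
  induction l with
  | nil => exact ⟨∅, by simp, fun k h => by simp at h⟩
  | cons a l ih =>
    obtain ⟨B, hB, h⟩ := ih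
    cases l with
    | nil => exact ⟨∅, by simp, fun k h => by simp at h⟩
    | cons b l =>
      by_cases hab : a.2 c = b.2 c
      · refine ⟨B.image Nat.succ, Finset.card_image_le.trans (by
          simp only [fl, if_pos hab]
          omega), ?_⟩
        intro k hk hne
        cases k with
        | zero => exact absurd hab (by simpa using hne)
        | succ k =>
          rw [Finset.mem_image]
          exact ⟨k, h k (by simpa using hk) (by simpa using hne), rfl⟩
      · refine ⟨insert 0 (B.image Nat.succ), (Finset.card_insert_le _ _).trans (by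
          have := Finset.card_image_le (s := B) (f := Nat.succ)
          simp only [fl, if_neg hab]
          omega), ?_⟩
        intro k hk hne
        cases k with
        | zero => simp
        | succ k =>
          rw [Finset.mem_insert]
          right
          rw [Finset.mem_image]
          exact ⟨k, h k (by simpa using hk) (by simpa using hne), rfl⟩

/-! ### The upper bound -/

lemma exists_flip (D : ℕ → Bool) {i j : ℕ} (hij : i ≤ j) (h : D i ≠ D j) :
    ∃ k, i ≤ k ∧ k < j ∧ D k ≠ D (k + 1) := by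
  by_contra hcon
  push Not at hcon
  apply h
  obtain ⟨n, rfl⟩ := Nat.exists_eq_add_of_le hij
  clear h hij
  induction n with
  | zero => rfl
  | succ n ih =>
    rw [ih (fun k h1 h2 => hcon k h1 (by omega))]
    exact hcon (i + n) (by omega) (by omega)

lemma step_cases {adj : (Bool → ℤ) → (Bool → ℤ) → Prop} {s s' : St} (h : Step adj s s')
    (c : Bool) : s'.1 c = s.1 c ∨ (s'.1 c = s.1 c + sg (s.2 c) ∧ s'.2 c = s.2 c) := by
  rcases h with ⟨c', h1, _⟩ | ⟨c', h1, h2, _⟩
  · left
    rw [h1]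
  · by_cases hc : c = c'
    · subst hc
      right
      rw [h2, h1]
      simp [mv]
    · left
      rw [h2]
      simp [mv, Function.update_of_ne hc]

/-- The coordinates of a point. -/
def co (z : ℝ × ℝ) (c : Bool) : ℝ := if c then z.2 else z.1

/-- The closed cell with index `v`. -/
def Cell (a h : ℝ) (v : Bool → ℤ) : Set (ℝ × ℝ) :=
  {z | ∀ c, a + h * v c ≤ co z c ∧ co z c ≤ a + h * (v c + 1)}

lemma co_cont (c : Bool) : Continuous (fun z : ℝ × ℝ => co z c) := by
  cases c
  · exact continuous_fst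
  · exact continuous_snd

lemma cell_closed (a h : ℝ) (v : Bool → ℤ) : IsClosed (Cell a h v) := by
  have : Cell a h v = ⋂ c, {z | a + h * v c ≤ co z c ∧ co z c ≤ a + h * (v c + 1)} := by
    ext z
    simp [Cell]
  rw [this]
  apply isClosed_iInter
  intro c
  exact (isClosed_le continuous_const (co_cont c)).inter (isClosed_le (co_cont c) continuous_const)

noncomputable def ctr (a h : ℝ) (z : ℤ) : ℝ := a + h * (z + 1 / 2)

lemma dist_le_of_co {z w : ℝ × ℝ} {r : ℝ} (h : ∀ c, |co z c - co w c| ≤ r) : dist z w ≤ r := by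
  rw [Prod.dist_eq, Real.dist_eq, Real.dist_eq]
  exact max_le (h false) (h true)

/-- The curve following a list of states. -/
noncomputable def crv (a h : ℝ) (l : List St) (c : Bool) (t : ℝ) : ℝ :=
  itp (fun k => ctr a h ((l.getD k default).1 c)) (l.length - 1) (((l.length - 1 : ℕ) : ℝ) * t)

lemma crv_mon {adj : (Bool → ℤ) → (Bool → ℤ) → Prop} {a h : ℝ} (hh : 0 < h) {l : List St}
    (hne : l ≠ []) (hch : l.IsChain (Step adj)) (c : Bool) {n : ℕ} (hn : fl c l + 1 ≤ n) :
    crv a h l c ∈ Mon n := by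
  classical
  set m := l.length - 1 with hm
  have hlen : 0 < l.length := List.length_pos_of_ne_nil hne
  set P : ℕ → St := fun k => l.getD k default with hP
  have hPk : ∀ k (hk : k < l.length), P k = l[k] := by
    intro k hk
    simp [hP, hk]
  have hstep : ∀ k, k < m → Step adj (P k) (P (k + 1)) := by
    intro k hk
    rw [List.isChain_iff_getElem] at hch
    rw [hPk k (by omega), hPk (k + 1) (by omega)]
    exact hch k (by omega)
  obtain ⟨B0, hB0, hbr⟩ := exists_breaks c l
  have hbr' : ∀ k, k < m → (P k).2 c ≠ (P (k + 1)).2 c → k ∈ B0 := by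
    intro k hk hne'
    rw [hPk k (by omega), hPk (k + 1) (by omega)] at hne'
    exact hbr k (by omega) hne'
  let B : Finset ℝ := insert 0 (insert 1 ((B0.filter (· < m)).image (fun k : ℕ => (k : ℝ) / m)))
  refine mon_of_finset (B := B) ?_ (by simp [B]) (by simp [B]) ?_ ?_ ?_
  · exact ((itp_cont _ _).comp (continuous_const.mul continuous_id)).continuousOn
  · intro b hb
    simp only [B, Finset.mem_insert, Finset.mem_image, Finset.mem_filter] at hb
    rcases hb with rfl | rfl | ⟨k, ⟨_, hk⟩, rfl⟩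
    · simp
    · simp
    · have h0 : (0 : ℝ) < m := by
        have : 0 < m := by omega
        exact_mod_cast this
      have h1 : (k : ℝ) ≤ m := by exact_mod_cast hk.le
      exact ⟨by positivity, by rw [div_le_one h0]; exact h1⟩
  · have h1 : (insert (0 : ℝ) (insert 1 ((B0.filter (· < m)).image
        (fun k : ℕ => (k : ℝ) / m)))).card ≤ (insert (1 : ℝ) ((B0.filter (· < m)).image
        (fun k : ℕ => (k : ℝ) / m))).card + 1 := Finset.card_insert_le _ _
    have h2 : (insert (1 : ℝ) ((B0.filter (· < m)).image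
        (fun k : ℕ => (k : ℝ) / m))).card ≤ ((B0.filter (· < m)).image
        (fun k : ℕ => (k : ℝ) / m)).card + 1 := Finset.card_insert_le _ _
    have h3 : ((B0.filter (· < m)).image (fun k : ℕ => (k : ℝ) / m)).card ≤ B0.card :=
      Finset.card_image_le.trans (Finset.card_filter_le _ _)
    show (insert (0 : ℝ) (insert 1 ((B0.filter (· < m)).image
        (fun k : ℕ => (k : ℝ) / m)))).card ≤ n + 1
    omega
  · intro u hu v hv huv hcons
    set x : ℕ → ℝ := fun k => ctr a h ((l.getD k default).1 c) with hx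
    have hxle : ∀ k, k < m → (x k ≤ x (k + 1) ∨ ((P k).2 c = false ∧ (P (k + 1)).2 c = false)) ∧
        (x (k + 1) ≤ x k ∨ ((P k).2 c = true ∧ (P (k + 1)).2 c = true)) := by
      intro k hk
      have hx1 : x k = ctr a h ((P k).1 c) := rfl
      have hx2 : x (k + 1) = ctr a h ((P (k + 1)).1 c) := rfl
      rw [hx1, hx2]
      rcases step_cases (hstep k hk) c with h1 | ⟨h1, h2⟩
      · rw [h1]
        exact ⟨Or.inl le_rfl, Or.inl le_rfl⟩
      · rw [h1, h2]
        cases hq : (P k).2 c
        · refine ⟨Or.inr ⟨rfl, rfl⟩, Or.inl ?_⟩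
          have : sg false = -1 := rfl
          rw [this]
          unfold ctr
          push_cast
          nlinarith
        · refine ⟨Or.inl ?_, Or.inr ⟨rfl, rfl⟩⟩
          have : sg true = 1 := rfl
          rw [this]
          unfold ctr
          push_cast
          nlinarith
    have hm0 : (0 : ℝ) ≤ m := by positivity
    have hflip : ∀ j, j < m → (P j).2 c ≠ (P (j + 1)).2 c → (m : ℝ) * u < j → (j : ℝ) < m * v →
        False := by
      intro j hj hne' h1 h2
      have h3 : (j : ℝ) / m ∈ B := by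
        simp only [B, Finset.mem_insert, Finset.mem_image, Finset.mem_filter]
        exact Or.inr (Or.inr ⟨j, ⟨hbr' j hj hne', hj⟩, rfl⟩)
      have h0 : (0 : ℝ) < m := by
        have : 0 < m := by omega
        exact_mod_cast this
      rcases hcons _ h3 with h4 | h4
      · rw [div_le_iff₀ h0] at h4
        linarith
      · rw [le_div_iff₀ h0] at h4
        linarith
    have hcomp : ∀ t ∈ Icc u v, (m : ℝ) * t ∈ Icc ((m : ℝ) * u) (m * v) := fun t ht =>
      ⟨mul_le_mul_of_nonneg_left ht.1 hm0, mul_le_mul_of_nonneg_left ht.2 hm0⟩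
    by_cases H : ∀ k < m, (k : ℝ) < m * v → (m : ℝ) * u < (k : ℝ) + 1 → x k ≤ x (k + 1)
    · left
      have := itp_mono x m (u := m * u) (v := m * v) H
      intro t ht t' ht' hle
      exact this (hcomp t ht) (hcomp t' ht') (mul_le_mul_of_nonneg_left hle hm0)
    · right
      push Not at H
      obtain ⟨k0, hk0, h1, h2, h3⟩ := H
      have H2 : ∀ k < m, (k : ℝ) < m * v → (m : ℝ) * u < (k : ℝ) + 1 → x (k + 1) ≤ x k := by
        intro k1 hk1 h4 h5
        by_contra h6
        have a1 : (P k0).2 c = false ∧ (P (k0 + 1)).2 c = false := by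
          rcases (hxle k0 hk0).1 with h | h
          · exact absurd h (not_le.2 h3)
          · exact h
        have a2 : (P k1).2 c = true ∧ (P (k1 + 1)).2 c = true := by
          rcases (hxle k1 hk1).2 with h | h
          · exact absurd h h6
          · exact h
        have hne' : k0 ≠ k1 := by
          rintro rfl
          rw [a1.1] at a2
          simp at a2
        rcases lt_or_gt_of_ne hne' with hlt | hlt
        · obtain ⟨j, hj1, hj2, hj3⟩ := exists_flip (fun j => (P j).2 c) (i := k0 + 1) (j := k1)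
            hlt (by show (P (k0 + 1)).2 c ≠ (P k1).2 c; rw [a1.2, a2.1]; simp)
          have e1 : (k0 : ℝ) + 1 ≤ j := by exact_mod_cast hj1
          have e2 : (j : ℝ) + 1 ≤ k1 := by exact_mod_cast hj2
          exact hflip j (by omega) hj3 (by linarith) (by linarith)
        · obtain ⟨j, hj1, hj2, hj3⟩ := exists_flip (fun j => (P j).2 c) (i := k1 + 1) (j := k0)
            hlt (by show (P (k1 + 1)).2 c ≠ (P k0).2 c; rw [a1.1, a2.2]; simp)
          have e1 : (k1 : ℝ) + 1 ≤ j := by exact_mod_cast hj1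
          have e2 : (j : ℝ) + 1 ≤ k0 := by exact_mod_cast hj2
          exact hflip j (by omega) hj3 (by linarith) (by linarith)
      have := itp_anti x m (u := m * u) (v := m * v) H2
      intro t ht t' ht' hle
      exact this (hcomp t ht) (hcomp t' ht') (mul_le_mul_of_nonneg_left hle hm0)

lemma E_le_of_tour {a h : ℝ} (hh : 0 < h) {F : Set (ℝ × ℝ)} (S : Finset (Bool → ℤ))
    (hcov : ∀ q ∈ F, ∃ v ∈ S, q ∈ Cell a h v) (hmeet : ∀ v ∈ S, ∃ q ∈ F, q ∈ Cell a h v)
    (l : List St) (hne : l ≠ [])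
    (hch : l.IsChain (Step (fun u w => ∃ q ∈ F, q ∈ Cell a h u ∧ q ∈ Cell a h w)))
    (hvis : ∀ v ∈ S, ∃ s ∈ l, s.1 = v) (hmem : ∀ s ∈ l, s.1 ∈ S) {n : ℕ}
    (hn : ∀ c, fl c l + 1 ≤ n) : E n F ≤ h / 2 := by
  set m := l.length - 1 with hm
  have hlen : 0 < l.length := List.length_pos_of_ne_nil hne
  set P : ℕ → St := fun k => l.getD k default with hP
  have hPk : ∀ k (hk : k < l.length), P k = l[k] := by
    intro k hk
    simp [hP, hk]
  have hstep : ∀ k, k < m →
      Step (fun u w => ∃ q ∈ F, q ∈ Cell a h u ∧ q ∈ Cell a h w) (P k) (P (k + 1)) := by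
    intro k hk
    rw [List.isChain_iff_getElem] at hch
    rw [hPk k (by omega), hPk (k + 1) (by omega)]
    exact hch k (by omega)
  have hPS : ∀ k, k < l.length → (P k).1 ∈ S := by
    intro k hk
    rw [hPk k hk]
    exact hmem _ (List.getElem_mem hk)
  have hbdd : BddBelow ((fun γ => Metric.hausdorffDist F γ) '' Curves n) := by
    refine ⟨0, ?_⟩
    rintro _ ⟨γ, _, rfl⟩
    exact Metric.hausdorffDist_nonneg
  refine (csInf_le hbdd ⟨_, ⟨crv a h l false, crv_mon hh hne hch false (hn false),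
    crv a h l true, crv_mon hh hne hch true (hn true), rfl⟩, rfl⟩).trans ?_
  have hcell : ∀ (v : Bool → ℤ) (q : ℝ × ℝ), q ∈ Cell a h v → ∀ c,
      |co q c - ctr a h (v c)| ≤ h / 2 := by
    intro v q hq c
    have := hq c
    rw [abs_le]
    unfold ctr
    constructor <;> nlinarith [this.1, this.2]
  have hco : ∀ (x y : ℝ) (c : Bool), co (x, y) c = if c then y else x := fun _ _ _ => rfl
  simp only
  refine Metric.hausdorffDist_le_of_mem_dist (by positivity) ?_ ?_
  · intro q hq
    obtain ⟨v, hv, hqv⟩ := hcov q hq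
    obtain ⟨s, hs, hsv⟩ := hvis v hv
    obtain ⟨k, hk, hks⟩ := List.mem_iff_getElem.1 hs
    have hval : ∃ t ∈ Icc (0 : ℝ) 1, ∀ c, crv a h l c t = ctr a h (v c) := by
      have hv' : ∀ c, ctr a h ((l.getD k default).1 c) = ctr a h (v c) := by
        intro c
        have : l.getD k default = s := by
          rw [← hks]
          exact hPk k hk
        rw [this, hsv]
      by_cases hm0 : m = 0
      · have hk0 : k = 0 := by omega
        refine ⟨0, by simp, fun c => ?_⟩
        unfold crv
        rw [← hm, hm0, itp_ge _ _ (by simp)]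
        rw [← hv' c, hk0]
      · have hmpos : (0 : ℝ) < m := by
          have : 0 < m := by omega
          exact_mod_cast this
        have hkm : (k : ℝ) ≤ m := by
          have : k ≤ m := by omega
          exact_mod_cast this
        refine ⟨k / m, ⟨by positivity, by rw [div_le_one hmpos]; exact hkm⟩, fun c => ?_⟩
        unfold crv
        rw [← hm, mul_div_cancel₀ _ hmpos.ne']
        rcases Nat.lt_or_ge k m with h1 | h1
        · rw [itp_seg _ _ k h1 le_rfl (by linarith), hv' c]
          ring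
        · have : k = m := by omega
          rw [this, itp_ge _ _ le_rfl, ← this, hv' c]
    obtain ⟨t, ht, htc⟩ := hval
    refine ⟨_, ⟨t, ht, rfl⟩, ?_⟩
    apply dist_le_of_co
    intro c
    have := hcell v q hqv c
    cases c
    · simpa [co, htc] using this
    · simpa [co, htc] using this
  · rintro _ ⟨t, ht, rfl⟩
    simp only
    by_cases hm0 : m = 0
    · obtain ⟨q, hq, hqc⟩ := hmeet _ (hPS 0 hlen)
      refine ⟨q, hq, ?_⟩
      rw [dist_comm]
      apply dist_le_of_co
      intro c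
      have h1 := hcell _ q hqc c
      have h2 : ∀ c, crv a h l c t = ctr a h ((P 0).1 c) := by
        intro c
        unfold crv
        rw [← hm, hm0, itp_ge _ _ (by simp)]
      cases c
      · simpa [co, h2] using h1
      · simpa [co, h2] using h1
    · have hmpos' : 0 < m := by omega
      have hmpos : (0 : ℝ) < m := by exact_mod_cast hmpos'
      obtain ⟨k, hk, hk1, hk2⟩ : ∃ k, k < m ∧ (k : ℝ) ≤ m * t ∧ (m : ℝ) * t ≤ k + 1 := by
        by_cases h1 : (m : ℝ) * t < m
        · refine ⟨⌊(m : ℝ) * t⌋₊, ?_, ?_, ?_⟩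
          · rw [Nat.floor_lt (mul_nonneg hmpos.le ht.1)]
            exact h1
          · exact Nat.floor_le (mul_nonneg hmpos.le ht.1)
          · exact (Nat.lt_floor_add_one _).le
        · refine ⟨m - 1, by omega, ?_, ?_⟩
          · rw [Nat.cast_sub hmpos']
            push_cast
            linarith
          · rw [Nat.cast_sub hmpos']
            push_cast
            nlinarith [ht.2]
      obtain ⟨q, hq, hq1, hq2⟩ : ∃ q ∈ F, q ∈ Cell a h (P k).1 ∧ q ∈ Cell a h (P (k + 1)).1 := by
        rcases hstep k hk with ⟨c', h1, _⟩ | ⟨c', h1, h2, h3⟩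
        · obtain ⟨q, hq, hqc⟩ := hmeet _ (hPS k (by omega))
          exact ⟨q, hq, hqc, by rw [h1]; exact hqc⟩
        · exact h3
      refine ⟨q, hq, ?_⟩
      rw [dist_comm]
      apply dist_le_of_co
      intro c
      have h1 := hcell _ q hq1
      have h2 := hcell _ q hq2
      have h3 : ∀ c, crv a h l c t = ctr a h ((P k).1 c) +
          (m * t - k) * (ctr a h ((P (k + 1)).1 c) - ctr a h ((P k).1 c)) := by
        intro c
        unfold crv
        rw [← hm, itp_seg _ _ k hk hk1 hk2]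
      have h4 : ∀ c, |co q c - crv a h l c t| ≤ h / 2 := by
        intro c
        rw [h3 c]
        have e1 := abs_le.1 (h1 c)
        have e2 := abs_le.1 (h2 c)
        set θ := (m : ℝ) * t - k
        have hθ0 : 0 ≤ θ := by simp only [θ]; linarith
        have hθ1 : θ ≤ 1 := by simp only [θ]; linarith
        rw [abs_le]
        constructor
        · nlinarith [mul_nonneg hθ0 (sub_nonneg.2 e2.1), mul_nonneg (sub_nonneg.2 hθ1)
            (sub_nonneg.2 e1.1), e1.1, e2.1]
        · nlinarith [mul_nonneg hθ0 (sub_nonneg.2 e2.2), mul_nonneg (sub_nonneg.2 hθ1)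
            (sub_nonneg.2 e1.2), e1.2, e2.2]
      cases c
      · simpa [co] using h4 false
      · simpa [co] using h4 true

lemma mv_of_diff {u w : Bool → ℤ} {c : Bool} (h : ∀ c', c' ≠ c → w c' = u c')
    (h1 : u c ≤ w c + 1) (h2 : w c ≤ u c + 1) (hne : u ≠ w) : ∃ σ, w = mv c u σ := by
  have h3 : w c ≠ u c := by
    intro h4
    apply hne
    funext c'
    by_cases hc : c' = c
    · rw [hc, h4]
    · rw [h c' hc]
  rcases lt_or_gt_of_ne h3 with h4 | h4
  · refine ⟨false, ?_⟩
    funext c'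
    by_cases hc : c' = c
    · subst hc
      simp only [mv, Function.update_self, sg]
      simp only [Bool.false_eq_true, if_false]
      omega
    · simp [mv, Function.update_of_ne hc, h c' hc]
  · refine ⟨true, ?_⟩
    funext c'
    by_cases hc : c' = c
    · subst hc
      simp only [mv, Function.update_self, sg]
      simp only [if_true]
      omega
    · simp [mv, Function.update_of_ne hc, h c' hc]

lemma cell_diff {a h : ℝ} (hh : 0 < h) {u w : Bool → ℤ} {q : ℝ × ℝ} (hu : q ∈ Cell a h u)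
    (hw : q ∈ Cell a h w) (c : Bool) : u c ≤ w c + 1 := by
  have h1 := (hu c).1
  have h2 := (hw c).2
  have h3 : h * (u c : ℝ) ≤ h * ((w c : ℝ) + 1) := by linarith
  have h4 : (u c : ℝ) ≤ (w c : ℝ) + 1 := le_of_mul_le_mul_left h3 hh
  exact_mod_cast h4

lemma upper_F {a b : ℝ} (hab : a < b) {F : Set (ℝ × ℝ)} (hF : F ∈ ZD a b) (p n : ℕ)
    (hp : 1 ≤ p) (hn : p ^ 2 + 1 ≤ n) : E n F ≤ (b - a) / p / 2 := by
  classical
  obtain ⟨hFne, hFc, hFconn, hFD⟩ := hF
  have hp0 : (0 : ℝ) < p := by exact_mod_cast hp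
  set h := (b - a) / p with hh
  have hpos : 0 < h := div_pos (by linarith) hp0
  have hph : h * p = b - a := by
    rw [hh]
    field_simp
  set S : Finset (Bool → ℤ) := (Fintype.piFinset (fun _ : Bool => Finset.Ico (0 : ℤ) p)).filter
    (fun v => ∃ q ∈ F, q ∈ Cell a h v) with hS
  have hScard : S.card ≤ p ^ 2 := by
    refine (Finset.card_filter_le _ _).trans ?_
    rw [Fintype.card_piFinset]
    simp
  have hSmem : ∀ v, v ∈ S ↔ (∀ c, 0 ≤ v c ∧ v c < p) ∧ ∃ q ∈ F, q ∈ Cell a h v := by
    intro v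
    rw [hS, Finset.mem_filter, Fintype.mem_piFinset]
    simp only [Finset.mem_Ico]
  have hcov : ∀ q ∈ F, ∃ v ∈ S, q ∈ Cell a h v := by
    intro q hq
    have hqD := hFD hq
    have hqc : ∀ c, a ≤ co q c ∧ co q c ≤ b := by
      intro c
      cases c
      · exact hqD.1
      · exact hqD.2
    have hex : ∀ c, ∃ z : ℤ, 0 ≤ z ∧ z < p ∧ a + h * z ≤ co q c ∧ co q c ≤ a + h * (z + 1) := by
      intro c
      have h1 : 0 ≤ (co q c - a) / h := div_nonneg (by linarith [(hqc c).1]) hpos.le
      have h2 : (co q c - a) / h ≤ p := by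
        rw [div_le_iff₀ hpos]
        linarith [(hqc c).2]
      have h3 : h * ((co q c - a) / h) = co q c - a := by field_simp
      by_cases h4 : (co q c - a) / h < p
      · refine ⟨⌊(co q c - a) / h⌋, Int.floor_nonneg.2 h1, ?_, ?_, ?_⟩
        · rw [Int.floor_lt]
          exact_mod_cast h4
        · have := Int.floor_le ((co q c - a) / h)
          nlinarith
        · have := (Int.lt_floor_add_one ((co q c - a) / h)).le
          nlinarith
      · have h5 : (co q c - a) / h = p := le_antisymm h2 (not_lt.1 h4)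
        rw [h5] at h3
        refine ⟨p - 1, by omega, by omega, ?_, ?_⟩
        · push_cast
          nlinarith
        · push_cast
          nlinarith
    choose z hz1 hz2 hz3 hz4 using hex
    refine ⟨z, ?_, fun c => ⟨hz3 c, hz4 c⟩⟩
    rw [hSmem]
    exact ⟨fun c => ⟨hz1 c, hz2 c⟩, q, hq, fun c => ⟨hz3 c, hz4 c⟩⟩
  have hSne : S.Nonempty := by
    obtain ⟨q, hq⟩ := hFne
    obtain ⟨v, hv, _⟩ := hcov q hq
    exact ⟨v, hv⟩
  have hconn : ∀ S' ⊆ S, S'.Nonempty → S' ≠ S → ∃ u ∈ S', ∃ c σ, mv c u σ ∈ S ∧ mv c u σ ∉ S' ∧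
      ∃ q ∈ F, q ∈ Cell a h u ∧ q ∈ Cell a h (mv c u σ) := by
    intro S' hS' hne hneq
    have hc1 : IsClosed (⋃ v ∈ S', Cell a h v) :=
      isClosed_biUnion_finset (fun v _ => cell_closed a h v)
    have hc2 : IsClosed (⋃ v ∈ S \ S', Cell a h v) :=
      isClosed_biUnion_finset (fun v _ => cell_closed a h v)
    obtain ⟨w0, hw0⟩ : (S \ S').Nonempty := by
      rw [Finset.sdiff_nonempty]
      intro h1
      exact hneq (Finset.Subset.antisymm hS' h1)
    obtain ⟨u0, hu0⟩ := hne
    obtain ⟨q1, hq1, hq1'⟩ := ((hSmem u0).1 (hS' hu0)).2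
    obtain ⟨q2, hq2, hq2'⟩ := ((hSmem w0).1 (Finset.mem_sdiff.1 hw0).1).2
    obtain ⟨q, hqF, hqK1, hqK2⟩ := isPreconnected_closed_iff.1 hFconn.isPreconnected
      (⋃ v ∈ S', Cell a h v) (⋃ v ∈ S \ S', Cell a h v) hc1 hc2 (by
        intro q hq
        obtain ⟨v, hv, hqv⟩ := hcov q hq
        by_cases hvS : v ∈ S'
        · left
          exact Set.mem_biUnion hvS hqv
        · right
          exact Set.mem_biUnion (Finset.mem_coe.2 (Finset.mem_sdiff.2 ⟨hv, hvS⟩)) hqv)
      ⟨q1, hq1, Set.mem_biUnion hu0 hq1'⟩ ⟨q2, hq2, Set.mem_biUnion hw0 hq2'⟩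
    simp only [Set.mem_iUnion] at hqK1 hqK2
    obtain ⟨u, hu, hqu⟩ := hqK1
    obtain ⟨w, hw, hqw⟩ := hqK2
    rw [Finset.mem_sdiff] at hw
    set v1 : Bool → ℤ := fun c => if c then w c else u c with hv1
    have hqv1 : q ∈ Cell a h v1 := by
      intro c
      cases c
      · simpa [hv1] using hqu false
      · simpa [hv1] using hqw true
    have hv1S : v1 ∈ S := by
      rw [hSmem]
      refine ⟨?_, q, hqF, hqv1⟩
      intro c
      cases c
      · simpa [hv1] using ((hSmem u).1 (hS' hu)).1 false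
      · simpa [hv1] using ((hSmem w).1 hw.1).1 true
    by_cases hv1S' : v1 ∈ S'
    · have hne' : v1 ≠ w := by
        rintro h1
        rw [h1] at hv1S'
        exact hw.2 hv1S'
      obtain ⟨σ, hσ⟩ := mv_of_diff (u := v1) (w := w) (c := false) (by
        intro c' hc'
        have : c' = true := by cases c' <;> simp_all
        subst this
        simp [hv1]) (cell_diff hpos hqv1 hqw false) (cell_diff hpos hqw hqv1 false) hne'
      refine ⟨v1, hv1S', false, σ, ?_⟩
      rw [← hσ]
      exact ⟨hw.1, hw.2, q, hqF, hqv1, hqw⟩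
    · have hne' : u ≠ v1 := by
        rintro h1
        rw [← h1] at hv1S'
        exact hv1S' hu
      obtain ⟨σ, hσ⟩ := mv_of_diff (u := u) (w := v1) (c := true) (by
        intro c' hc'
        have : c' = false := by cases c' <;> simp_all
        subst this
        simp [hv1]) (cell_diff hpos hqu hqv1 true) (cell_diff hpos hqv1 hqu true) hne'
      refine ⟨u, hu, true, σ, ?_⟩
      rw [← hσ]
      exact ⟨hv1S, hv1S', q, hqF, hqu, hqv1⟩
  obtain ⟨l, hl1, hl2, hl3, hl4, hl5⟩ := exists_tour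
    (fun u w => ∃ q ∈ F, q ∈ Cell a h u ∧ q ∈ Cell a h w)
    (fun u w ⟨q, h1, h2, h3⟩ => ⟨q, h1, h3, h2⟩) S hSne hconn
  exact E_le_of_tour hpos S hcov (fun v hv => ((hSmem v).1 hv).2) l hl1 hl2 hl3 hl4
    (fun c => by have := hl5 c; omega)

/-! ### Counting monotone pieces -/

lemma exists_piece {φ : ℝ → ℝ} {k : ℕ} {t : Fin (k + 1) → ℝ} (ht : StrictMono t) {u v : ℝ}
    (h0 : t 0 ≤ u) (h1 : v ≤ t (Fin.last k)) (huv : u < v) (hφ : φ v < φ u) :
    ∃ l : Fin k, ∃ p q, u ≤ p ∧ p < q ∧ q ≤ v ∧ p ∈ Icc (t l.castSucc) (t l.succ) ∧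
      q ∈ Icc (t l.castSucc) (t l.succ) ∧ φ q < φ p := by
  by_contra hcon
  push Not at hcon
  have key : ∀ l : Fin (k + 1), φ u ≤ φ (max u (min v (t l))) := by
    intro l
    induction l using Fin.induction with
    | zero =>
      rw [max_eq_left (min_le_of_right_le h0)]
    | succ l ih =>
      refine ih.trans ?_
      have hlt : t l.castSucc < t l.succ := ht Fin.castSucc_lt_succ
      by_cases h2 : t l.succ ≤ u
      · rw [max_eq_left (min_le_of_right_le h2), max_eq_left (min_le_of_right_le (hlt.le.trans h2))]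
      · by_cases h3 : v ≤ t l.castSucc
        · rw [min_eq_left h3, min_eq_left (h3.trans hlt.le)]
        · push Not at h2 h3
          have e1 : max u (min v (t l.castSucc)) = max u (t l.castSucc) := by
            rw [min_eq_right h3.le]
          have e2 : max u (min v (t l.succ)) = min v (t l.succ) :=
            max_eq_right (le_min huv.le h2.le)
          rw [e1, e2]
          apply hcon l _ _ (le_max_left _ _) _ (min_le_left _ _) _ _
          · exact max_lt (lt_min huv h2) (lt_min h3 hlt)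
          · exact ⟨le_max_right _ _, max_le h2.le hlt.le⟩
          · exact ⟨le_min h3.le hlt.le, min_le_right _ _⟩
  have := key (Fin.last k)
  rw [min_eq_left h1, max_eq_right huv.le] at this
  exact absurd hφ (not_lt.2 this)

lemma pieces_ge {φ : ℝ → ℝ} {n : ℕ} (hφ : φ ∈ Mon n) (z : ℕ → ℝ) (G : ℕ)
    (hz : ∀ g ≤ G, z g ∈ Icc (0 : ℝ) 1) (hlt : ∀ g < G, z g < z (g + 1))
    (hev : ∀ g < G, Even g → φ (z (g + 1)) < φ (z g))
    (hod : ∀ g < G, ¬ Even g → φ (z g) < φ (z (g + 1))) : G ≤ n := by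
  obtain ⟨_, k, hkn, t, ht, ht0, ht1, hmon⟩ := hφ
  have hex : ∀ g, ∃ l : ℕ, g < G → ∃ hl : l < k, ∃ p q, z g ≤ p ∧ p < q ∧ q ≤ z (g + 1) ∧
      p ∈ Icc (t (Fin.castSucc ⟨l, hl⟩)) (t (Fin.succ ⟨l, hl⟩)) ∧
      q ∈ Icc (t (Fin.castSucc ⟨l, hl⟩)) (t (Fin.succ ⟨l, hl⟩)) ∧
      (Even g → φ q < φ p) ∧ (¬ Even g → φ p < φ q) := by
    intro g
    by_cases hg : g < G
    · have h0 : t 0 ≤ z g := by
        rw [ht0]
        exact (hz g hg.le).1
      have h1 : z (g + 1) ≤ t (Fin.last k) := by
        rw [ht1]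
        exact (hz (g + 1) hg).2
      by_cases he : Even g
      · obtain ⟨l, p, q, e1, e2, e3, e4, e5, e6⟩ :=
          exists_piece ht h0 h1 (hlt g hg) (hev g hg he)
        exact ⟨l, fun _ => ⟨l.2, p, q, e1, e2, e3, e4, e5, fun _ => e6, fun h => absurd he h⟩⟩
      · obtain ⟨l, p, q, e1, e2, e3, e4, e5, e6⟩ :=
          exists_piece (φ := fun x => - φ x) ht h0 h1 (hlt g hg)
            (by have := hod g hg he; linarith)
        exact ⟨l, fun _ => ⟨l.2, p, q, e1, e2, e3, e4, e5, fun h => absurd h he,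
          fun _ => by linarith⟩⟩
    · exact ⟨0, fun h => absurd h hg⟩
  choose L hL using hex
  have hstep : ∀ g, g + 1 < G → L g < L (g + 1) := by
    intro g hg
    obtain ⟨hl, p, q, e1, e2, e3, e4, e5, e6, e7⟩ := hL g (by omega)
    obtain ⟨hl', p', q', e1', e2', e3', e4', e5', e6', e7'⟩ := hL (g + 1) hg
    by_contra hcon
    rw [not_lt] at hcon
    rcases hcon.lt_or_eq with hc | hc
    · have h1 : t (Fin.succ ⟨L (g + 1), hl'⟩) ≤ t (Fin.castSucc ⟨L g, hl⟩) := by
        apply ht.monotone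
        rw [Fin.le_def]
        simp only [Fin.val_castSucc, Fin.val_succ]
        omega
      linarith [e5'.2, e4.1]
    · have hq : (⟨L (g + 1), hl'⟩ : Fin k) = ⟨L g, hl⟩ := Fin.ext hc
      rw [hq] at e4' e5'
      rcases hmon ⟨L g, hl⟩ with hm | hm
      · have h1 := hm e4 e5 e2.le
        have h2 := hm e4' e5' e2'.le
        by_cases he : Even g
        · linarith [e6 he]
        · have : Even (g + 1) := by
            rw [Nat.even_add_one]
            exact he
          linarith [e6' this]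
      · have h1 := hm e4 e5 e2.le
        have h2 := hm e4' e5' e2'.le
        by_cases he : Even g
        · have : ¬ Even (g + 1) := by
            rw [Nat.even_add_one]
            simpa using he
          linarith [e7' this]
        · linarith [e7 he]
  have hge : ∀ g, g < G → g ≤ L g := by
    intro g
    induction g with
    | zero => intro _; omega
    | succ g ih =>
      intro hg
      have := ih (by omega)
      have := hstep g hg
      omega
  by_contra hcon
  have hG : 0 < G := by omega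
  obtain ⟨hl, _⟩ := hL (G - 1) (by omega)
  have := hge (G - 1) (by omega)
  omega

/-- Alternating version. -/
lemma pieces_alt {φ : ℝ → ℝ} {n : ℕ} (hφ : φ ∈ Mon n) (τ σ : ℕ → ℝ) (T : ℕ)
    (hτ : ∀ i < T, τ i ∈ Icc (0 : ℝ) 1)
    (h : ∀ i, i + 1 < T → τ i < σ i ∧ σ i < τ (i + 1) ∧ φ (σ i) < φ (τ i) ∧
      φ (σ i) < φ (τ (i + 1))) : 2 * T - 2 ≤ n := by
  by_cases hT : T = 0
  · omega
  refine pieces_ge hφ (fun g => if Even g then τ (g / 2) else σ (g / 2)) (2 * T - 2) ?_ ?_ ?_ ?_
  · intro g hg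
    by_cases he : Even g
    · simp only [if_pos he]
      exact hτ _ (by omega)
    · simp only [if_neg he]
      have h1 := h (g / 2) (by
        rw [Nat.not_even_iff] at he
        omega)
      have h2 := hτ (g / 2) (by omega)
      have h3 := hτ (g / 2 + 1) (by
        rw [Nat.not_even_iff] at he
        omega)
      exact ⟨by linarith [h2.1], by linarith [h3.2]⟩
  · intro g hg
    by_cases he : Even g
    · have he' : ¬ Even (g + 1) := by rw [Nat.even_add_one]; simpa using he
      simp only [if_pos he, if_neg he']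
      rw [Nat.even_iff] at he
      have e : (g + 1) / 2 = g / 2 := by omega
      rw [e]
      exact (h (g / 2) (by omega)).1
    · have he' : Even (g + 1) := by rw [Nat.even_add_one]; exact he
      simp only [if_neg he, if_pos he']
      rw [Nat.not_even_iff] at he
      have e : (g + 1) / 2 = g / 2 + 1 := by omega
      rw [e]
      exact (h (g / 2) (by omega)).2.1
  · intro g hg he
    have he' : ¬ Even (g + 1) := by rw [Nat.even_add_one]; simpa using he
    simp only [if_pos he, if_neg he']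
    rw [Nat.even_iff] at he
    have e : (g + 1) / 2 = g / 2 := by omega
    rw [e]
    exact (h (g / 2) (by omega)).2.2.1
  · intro g hg he
    have he' : Even (g + 1) := by rw [Nat.even_add_one]; exact he
    simp only [if_neg he, if_pos he']
    rw [Nat.not_even_iff] at he
    have e : (g + 1) / 2 = g / 2 + 1 := by omega
    rw [e]
    exact (h (g / 2) (by omega)).2.2.2

/-! ### The comb -/

/-- The one-sided comb. -/
def comb (a b h : ℝ) (m : ℕ) : Set (ℝ × ℝ) :=
  (Icc a b ×ˢ Icc a b) ∩ ({z | z.2 = a} ∪ (⋃ j ∈ Finset.range m, {z | z.1 = a + 2 * j * h}) ∪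
    ⋃ j ∈ Finset.range m, ⋃ i ∈ Finset.Icc 1 (2 * m - 1),
      {z | a + 2 * j * h ≤ z.1 ∧ z.1 ≤ a + (2 * j + 1) * h ∧ z.2 = a + i * h})

lemma mem_comb {a b h : ℝ} {m : ℕ} {z : ℝ × ℝ} : z ∈ comb a b h m ↔
    (z ∈ Icc a b ×ˢ Icc a b) ∧ (z.2 = a ∨ (∃ j : ℕ, j < m ∧ z.1 = a + 2 * j * h) ∨
      ∃ j : ℕ, j < m ∧ ∃ i : ℕ, 1 ≤ i ∧ i ≤ 2 * m - 1 ∧ a + 2 * j * h ≤ z.1 ∧
        z.1 ≤ a + (2 * j + 1) * h ∧ z.2 = a + i * h) := by
  unfold comb
  simp only [Set.mem_inter_iff, Set.mem_union, Set.mem_iUnion, Finset.mem_range, Finset.mem_Icc,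
    exists_prop, Set.mem_ofPred_eq]
  constructor
  · rintro ⟨h1, (h2 | h2) | ⟨j, hj, i, ⟨hi1, hi2⟩, h3⟩⟩
    · exact ⟨h1, Or.inl h2⟩
    · exact ⟨h1, Or.inr (Or.inl h2)⟩
    · exact ⟨h1, Or.inr (Or.inr ⟨j, hj, i, hi1, hi2, h3⟩)⟩
  · rintro ⟨h1, h2 | h2 | ⟨j, hj, i, hi1, hi2, h3⟩⟩
    · exact ⟨h1, Or.inl (Or.inl h2)⟩
    · exact ⟨h1, Or.inl (Or.inr h2)⟩
    · exact ⟨h1, Or.inr ⟨j, hj, i, ⟨hi1, hi2⟩, h3⟩⟩

lemma comb_mem_ZD {a b : ℝ} (hab : a < b) {m : ℕ} (hm : 1 ≤ m) :
    comb a b ((b - a) / (2 * m - 1)) m ∈ ZD a b := by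
  have hm' : (1 : ℝ) ≤ m := by exact_mod_cast hm
  set h := (b - a) / (2 * m - 1) with hh
  have hden : (0 : ℝ) < 2 * m - 1 := by linarith
  have hpos : 0 < h := div_pos (by linarith) hden
  have hN : h * (2 * m - 1) = b - a := by
    rw [hh]
    field_simp
  have hx : ∀ j : ℕ, j < m → a ≤ a + 2 * j * h ∧ a + 2 * j * h ≤ b ∧ a + (2 * j + 1) * h ≤ b := by
    intro j hj
    have h1 : (j : ℝ) + 1 ≤ m := by exact_mod_cast hj
    have h0 : (0 : ℝ) ≤ j := by positivity
    refine ⟨by nlinarith, by nlinarith, by nlinarith⟩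
  have hy : ∀ i : ℕ, i ≤ 2 * m - 1 → a ≤ a + i * h ∧ a + i * h ≤ b := by
    intro i hi
    have h1 : (i : ℝ) ≤ 2 * m - 1 := by
      have : i + 1 ≤ 2 * m := by omega
      have h2 : (i : ℝ) + 1 ≤ 2 * m := by exact_mod_cast this
      linarith
    have h0 : (0 : ℝ) ≤ i := by positivity
    refine ⟨by nlinarith, by nlinarith⟩
  have hbase : (a, a) ∈ comb a b h m := by
    rw [mem_comb]
    exact ⟨⟨⟨le_rfl, hab.le⟩, ⟨le_rfl, hab.le⟩⟩, Or.inl rfl⟩
  have hclosed : IsClosed (comb a b h m) := by
    unfold comb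
    refine (isClosed_Icc.prod isClosed_Icc).inter ?_
    refine IsClosed.union (IsClosed.union ?_ ?_) ?_
    · exact isClosed_eq continuous_snd continuous_const
    · exact isClosed_biUnion_finset (fun j _ => isClosed_eq continuous_fst continuous_const)
    · refine isClosed_biUnion_finset (fun j _ => isClosed_biUnion_finset (fun i _ => ?_))
      exact (isClosed_le continuous_const continuous_fst).inter
        ((isClosed_le continuous_fst continuous_const).inter
          (isClosed_eq continuous_snd continuous_const))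
  refine ⟨⟨_, hbase⟩, ?_, ⟨⟨_, hbase⟩, ?_⟩, fun z hz => hz.1⟩
  · exact (isCompact_Icc.prod isCompact_Icc).of_isClosed_subset hclosed (fun z hz => hz.1)
  · have p1 : IsPreconnected (Icc a b ×ˢ ({a} : Set ℝ)) :=
      isPreconnected_Icc.prod isPreconnected_singleton
    have s1 : Icc a b ×ˢ ({a} : Set ℝ) ⊆ comb a b h m := by
      rintro z ⟨hz1, hz2⟩
      rw [Set.mem_singleton_iff] at hz2
      rw [mem_comb]
      exact ⟨⟨hz1, by rw [hz2]; exact ⟨le_rfl, hab.le⟩⟩, Or.inl hz2⟩
    have m1 : (a, a) ∈ Icc a b ×ˢ ({a} : Set ℝ) := ⟨⟨le_rfl, hab.le⟩, rfl⟩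
    have p2 : ∀ j : ℕ, j < m → IsPreconnected
        ((Icc a b ×ˢ ({a} : Set ℝ)) ∪ (({a + 2 * j * h} : Set ℝ) ×ˢ Icc a b)) := by
      intro j hj
      obtain ⟨e1, e2, _⟩ := hx j hj
      exact p1.union (a + 2 * j * h, a) ⟨⟨e1, e2⟩, rfl⟩ ⟨rfl, ⟨le_rfl, hab.le⟩⟩
        (isPreconnected_singleton.prod isPreconnected_Icc)
    have s2 : ∀ j : ℕ, j < m → ({a + 2 * j * h} : Set ℝ) ×ˢ Icc a b ⊆ comb a b h m := by
      rintro j hj z ⟨hz1, hz2⟩
      obtain ⟨e1, e2, _⟩ := hx j hj
      rw [Set.mem_singleton_iff] at hz1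
      rw [mem_comb]
      exact ⟨⟨by rw [hz1]; exact ⟨e1, e2⟩, hz2⟩, Or.inr (Or.inl ⟨j, hj, hz1⟩)⟩
    refine isPreconnected_of_forall (a, a) ?_
    intro z hz
    have hz' := mem_comb.1 hz
    rcases hz'.2 with h1 | ⟨j, hj, h1⟩ | ⟨j, hj, i, hi1, hi2, h2, h3, h4⟩
    · exact ⟨_, s1, m1, ⟨hz'.1.1, h1⟩, p1⟩
    · exact ⟨_, Set.union_subset s1 (s2 j hj), Or.inl m1, Or.inr ⟨h1, hz'.1.2⟩, p2 j hj⟩
    · obtain ⟨e1, e2, e3⟩ := hx j hj
      obtain ⟨e4, e5⟩ := hy i hi2
      refine ⟨((Icc a b ×ˢ ({a} : Set ℝ)) ∪ (({a + 2 * j * h} : Set ℝ) ×ˢ Icc a b)) ∪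
        (Icc (a + 2 * j * h) (a + (2 * j + 1) * h) ×ˢ ({a + i * h} : Set ℝ)),
        Set.union_subset (Set.union_subset s1 (s2 j hj)) ?_, Or.inl (Or.inl m1),
        Or.inr ⟨⟨h2, h3⟩, h4⟩, ?_⟩
      · rintro w ⟨hw1, hw2⟩
        rw [Set.mem_singleton_iff] at hw2
        rw [mem_comb]
        exact ⟨⟨⟨e1.trans hw1.1, hw1.2.trans e3⟩, by rw [hw2]; exact ⟨e4, e5⟩⟩,
          Or.inr (Or.inr ⟨j, hj, i, hi1, hi2, hw1.1, hw1.2, hw2⟩)⟩
      · refine (p2 j hj).union (a + 2 * j * h, a + i * h) (Or.inr ⟨rfl, ⟨e4, e5⟩⟩)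
          ⟨⟨le_rfl, by nlinarith⟩, rfl⟩ (isPreconnected_Icc.prod isPreconnected_singleton)

/-- The region around the tooth `(j, i)`. -/
def tooth (a h : ℝ) (j i : ℕ) : Set (ℝ × ℝ) :=
  {z | |z.2 - (a + i * h)| < h / 2 ∧ a + 2 * j * h + h / 2 < z.1 ∧
    z.1 < a + 2 * j * h + 3 * h / 2}

lemma tooth_disj {a h : ℝ} (hpos : 0 < h) {j i j' i' : ℕ} {z : ℝ × ℝ} (h1 : z ∈ tooth a h j i)
    (h2 : z ∈ tooth a h j' i') : j = j' ∧ i = i' := by
  obtain ⟨a1, a2, a3⟩ := h1
  obtain ⟨b1, b2, b3⟩ := h2
  rw [abs_lt] at a1 b1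
  constructor
  · rcases lt_trichotomy j j' with h | h | h
    · exfalso
      have : (j : ℝ) + 1 ≤ j' := by exact_mod_cast h
      nlinarith
    · exact h
    · exfalso
      have : (j' : ℝ) + 1 ≤ j := by exact_mod_cast h
      nlinarith
  · rcases lt_trichotomy i i' with h | h | h
    · exfalso
      have : (i : ℝ) + 1 ≤ i' := by exact_mod_cast h
      nlinarith [a1.1, a1.2, b1.1, b1.2]
    · exact h
    · exfalso
      have : (i' : ℝ) + 1 ≤ i := by exact_mod_cast h
      nlinarith [a1.1, a1.2, b1.1, b1.2]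

lemma exit_tooth {a b h : ℝ} (hpos : 0 < h) {m : ℕ} {φ ψ : ℝ → ℝ}
    (hφ : ContinuousOn φ (Icc 0 1)) (hψ : ContinuousOn ψ (Icc 0 1))
    (hclose : ∀ t ∈ Icc (0 : ℝ) 1, ∃ f ∈ comb a b h m, dist (φ t, ψ t) f < h / 2)
    {j i : ℕ} (hi : 1 ≤ i) {t t' : ℝ} (ht : t ∈ Icc (0 : ℝ) 1) (ht' : t' ∈ Icc (0 : ℝ) 1)
    (h1 : (φ t, ψ t) ∈ tooth a h j i) (h2 : (φ t', ψ t') ∉ tooth a h j i) :
    ∃ s ∈ uIcc t t', φ s ≤ a + 2 * j * h + h / 2 := by
  by_contra hcon
  push Not at hcon
  have hsub : uIcc t t' ⊆ Icc (0 : ℝ) 1 := by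
    intro s hs
    rw [Set.mem_uIcc] at hs
    rcases hs with hs | hs
    · exact ⟨ht.1.trans hs.1, hs.2.trans ht'.2⟩
    · exact ⟨ht'.1.trans hs.1, hs.2.trans ht.2⟩
  have hcont : ContinuousOn (fun s => (φ s, ψ s)) (uIcc t t') :=
    (hφ.mono hsub).prodMk (hψ.mono hsub)
  have hpre : IsPreconnected ((fun s => (φ s, ψ s)) '' uIcc t t') :=
    isPreconnected_uIcc.image _ hcont
  let U : Set (ℝ × ℝ) := {z | |z.2 - (a + i * h)| < h / 2 ∧ z.1 < a + 2 * j * h + 3 * h / 2}
  let V : Set (ℝ × ℝ) := {z | h / 2 < |z.2 - (a + i * h)| ∨ a + 2 * j * h + 3 * h / 2 < z.1}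
  have hcf : Continuous (fun z : ℝ × ℝ => |z.2 - (a + i * h)|) := by fun_prop
  have hU : IsOpen U := IsOpen.inter (isOpen_lt hcf continuous_const)
    (isOpen_lt continuous_fst continuous_const)
  have hV : IsOpen V := IsOpen.union (isOpen_lt continuous_const hcf)
    (isOpen_lt continuous_const continuous_fst)
  have hUV : Disjoint U V := by
    rw [Set.disjoint_left]
    rintro z ⟨h3, h4⟩ (h5 | h5)
    · linarith
    · linarith
  have hcov : (fun s => (φ s, ψ s)) '' uIcc t t' ⊆ U ∪ V := by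
    rintro _ ⟨s, hs, rfl⟩
    have hφs := hcon s hs
    obtain ⟨f, hf, hd⟩ := hclose s (hsub hs)
    by_cases hVs : (φ s, ψ s) ∈ V
    · exact Or.inr hVs
    · left
      have hV' : ¬ (h / 2 < |ψ s - (a + i * h)| ∨ a + 2 * j * h + 3 * h / 2 < φ s) := hVs
      push Not at hV'
      obtain ⟨h3, h4⟩ := hV'
      rw [Prod.dist_eq, max_lt_iff, Real.dist_eq, Real.dist_eq] at hd
      obtain ⟨hd1, hd2⟩ := hd
      simp only at hd1 hd2
      rw [abs_lt] at hd1 hd2
      rw [abs_le] at h3
      have hi' : (1 : ℝ) ≤ i := by exact_mod_cast hi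
      rcases (mem_comb.1 hf).2 with g | ⟨j', hj', g⟩ | ⟨j', hj', i', hi1, hi2, g1, g2, g3⟩
      · exfalso
        nlinarith [hd2.1, hd2.2, h3.1, h3.2]
      · exfalso
        rcases lt_trichotomy j j' with hlt | hlt | hlt
        · have : (j : ℝ) + 1 ≤ j' := by exact_mod_cast hlt
          nlinarith [hd1.1, hd1.2]
        · subst hlt
          linarith [hd1.1, hd1.2]
        · have : (j' : ℝ) + 1 ≤ j := by exact_mod_cast hlt
          nlinarith [hd1.1, hd1.2]
      · have hii : i' = i := by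
          rcases lt_trichotomy i i' with hlt | hlt | hlt
          · exfalso
            have : (i : ℝ) + 1 ≤ i' := by exact_mod_cast hlt
            nlinarith [hd2.1, hd2.2, h3.1, h3.2]
          · exact hlt.symm
          · exfalso
            have : (i' : ℝ) + 1 ≤ i := by exact_mod_cast hlt
            nlinarith [hd2.1, hd2.2, h3.1, h3.2]
        have hjj : j' = j := by
          rcases lt_trichotomy j j' with hlt | hlt | hlt
          · exfalso
            have : (j : ℝ) + 1 ≤ j' := by exact_mod_cast hlt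
            nlinarith [hd1.1, hd1.2]
          · exact hlt.symm
          · exfalso
            have : (j' : ℝ) + 1 ≤ j := by exact_mod_cast hlt
            nlinarith [hd1.1, hd1.2]
        subst hii hjj
        refine ⟨?_, ?_⟩
        · show |ψ s - (a + i' * h)| < h / 2
          rw [abs_lt]
          constructor <;> linarith [hd2.1, hd2.2]
        · show φ s < a + 2 * j' * h + 3 * h / 2
          nlinarith [hd1.1, hd1.2]
  have hsubU := hpre.subset_left_of_subset_union hU hV hUV hcov
    ⟨(φ t, ψ t), ⟨t, Set.left_mem_uIcc, rfl⟩, h1.1, h1.2.2⟩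
  have h5 := hsubU ⟨t', Set.right_mem_uIcc, rfl⟩
  exact h2 ⟨h5.1, hcon t' Set.right_mem_uIcc, h5.2⟩

lemma pieces_lower {a b : ℝ} (hab : a < b) {m n : ℕ} (hm : 1 ≤ m) {φ ψ : ℝ → ℝ}
    (hφ : φ ∈ Mon n) (hψ : ψ ∈ Mon n)
    (hd : Metric.hausdorffDist (comb a b ((b - a) / (2 * m - 1)) m)
      ((fun t => (φ t, ψ t)) '' Icc 0 1) < (b - a) / (2 * m - 1) / 2) :
    2 * (m * (2 * m - 1)) - 2 ≤ n := by
  classical
  have hm' : (1 : ℝ) ≤ m := by exact_mod_cast hm
  have hZ := comb_mem_ZD hab hm
  set h := (b - a) / (2 * m - 1) with hh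
  have hden : (0 : ℝ) < 2 * m - 1 := by linarith
  have hpos : 0 < h := div_pos (by linarith) hden
  have hN : h * (2 * m - 1) = b - a := by
    rw [hh]
    field_simp
  set γ := (fun t => (φ t, ψ t)) '' Icc (0 : ℝ) 1 with hγ
  have hγc : IsCompact γ := isCompact_Icc.image_of_continuousOn (hφ.1.prodMk hψ.1)
  have hγne : γ.Nonempty := ⟨_, ⟨0, by simp, rfl⟩⟩
  have hfin : Metric.hausdorffEDist (comb a b h m) γ ≠ ⊤ :=
    Metric.hausdorffEDist_ne_top_of_nonempty_of_bounded hZ.1 hγne hZ.2.1.isBounded hγc.isBounded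
  have hclose : ∀ t ∈ Icc (0 : ℝ) 1, ∃ f ∈ comb a b h m, dist (φ t, ψ t) f < h / 2 := by
    intro t ht
    obtain ⟨f, hf, hf'⟩ := Metric.exists_dist_lt_of_hausdorffDist_lt'
      (show (φ t, ψ t) ∈ γ from ⟨t, ht, rfl⟩) hd hfin
    exact ⟨f, hf, by rw [dist_comm]; exact hf'⟩
  have hx : ∀ j : ℕ, j < m → a ≤ a + 2 * j * h ∧ a + 2 * j * h ≤ b ∧ a + (2 * j + 1) * h ≤ b := by
    intro j hj
    have h1 : (j : ℝ) + 1 ≤ m := by exact_mod_cast hj
    have h0 : (0 : ℝ) ≤ j := by positivity
    refine ⟨by nlinarith, by nlinarith, by nlinarith⟩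
  have hy : ∀ i : ℕ, i ≤ 2 * m - 1 → a ≤ a + i * h ∧ a + i * h ≤ b := by
    intro i hi
    have h1 : (i : ℝ) ≤ 2 * m - 1 := by
      have : i + 1 ≤ 2 * m := by omega
      have h2 : (i : ℝ) + 1 ≤ 2 * m := by exact_mod_cast this
      linarith
    have h0 : (0 : ℝ) ≤ i := by positivity
    refine ⟨by nlinarith, by nlinarith⟩
  have hvis : ∀ q : ℕ × ℕ, ∃ t : ℝ, q.1 < m → 1 ≤ q.2 → q.2 ≤ 2 * m - 1 →
      t ∈ Icc (0 : ℝ) 1 ∧ (φ t, ψ t) ∈ tooth a h q.1 q.2 := by
    rintro ⟨j, i⟩
    by_cases hc : j < m ∧ 1 ≤ i ∧ i ≤ 2 * m - 1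
    · obtain ⟨hj, hi1, hi2⟩ := hc
      obtain ⟨e1, e2, e3⟩ := hx j hj
      obtain ⟨e4, e5⟩ := hy i hi2
      have hmem : (a + (2 * j + 1) * h, a + i * h) ∈ comb a b h m := by
        rw [mem_comb]
        refine ⟨⟨⟨by nlinarith, e3⟩, ⟨e4, e5⟩⟩, Or.inr (Or.inr ⟨j, hj, i, hi1, hi2, ?_, le_rfl,
          rfl⟩)⟩
        show a + 2 * j * h ≤ a + (2 * j + 1) * h
        nlinarith
      obtain ⟨_, ⟨t, ht, rfl⟩, hd'⟩ := Metric.exists_dist_lt_of_hausdorffDist_lt hmem hd hfin
      refine ⟨t, fun _ _ _ => ⟨ht, ?_⟩⟩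
      rw [Prod.dist_eq, max_lt_iff, Real.dist_eq, Real.dist_eq] at hd'
      obtain ⟨hd1, hd2⟩ := hd'
      simp only at hd1 hd2
      rw [abs_lt] at hd1
      refine ⟨?_, ?_, ?_⟩
      · show |ψ t - (a + i * h)| < h / 2
        rw [abs_sub_comm]
        exact hd2
      · show a + 2 * j * h + h / 2 < φ t
        linarith [hd1.1, hd1.2]
      · show φ t < a + 2 * j * h + 3 * h / 2
        linarith [hd1.1, hd1.2]
    · exact ⟨0, fun h1 h2 h3 => absurd ⟨h1, h2, h3⟩ hc⟩
  choose tt htt using hvis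
  set I : Finset (ℕ × ℕ) := Finset.range m ×ˢ Finset.Icc 1 (2 * m - 1) with hI
  have hImem : ∀ q, q ∈ I ↔ q.1 < m ∧ 1 ≤ q.2 ∧ q.2 ≤ 2 * m - 1 := by
    intro q
    rw [hI, Finset.mem_product, Finset.mem_range, Finset.mem_Icc]
  set T := m * (2 * m - 1) with hT
  have hIcard : I.card = T := by
    rw [hI, Finset.card_product, Finset.card_range, Nat.card_Icc]
    congr 1
  have htt' : ∀ q ∈ I, tt q ∈ Icc (0 : ℝ) 1 ∧ (φ (tt q), ψ (tt q)) ∈ tooth a h q.1 q.2 := by
    intro q hq
    obtain ⟨h1, h2, h3⟩ := (hImem q).1 hq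
    exact htt q h1 h2 h3
  have hinj : Set.InjOn tt I := by
    intro q hq q' hq' heq
    have h1 := (htt' q hq).2
    have h2 := (htt' q' hq').2
    rw [heq] at h1
    obtain ⟨e1, e2⟩ := tooth_disj hpos h1 h2
    exact Prod.ext e1 e2
  set TT : Finset ℝ := I.image tt with hTT
  have hTTcard : TT.card = T := by
    rw [hTT, Finset.card_image_of_injOn hinj, hIcard]
  set e := TT.orderEmbOfFin hTTcard with he
  have hTpos : 0 < T := Nat.mul_pos (by omega) (by omega)
  -- the times in increasing order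
  let τ : ℕ → ℝ := fun k => if hk : k < T then e ⟨k, hk⟩ else 0
  have hτ : ∀ k (hk : k < T), τ k = e ⟨k, hk⟩ := fun k hk => dif_pos hk
  have hτmem : ∀ k, k < T → ∃ q ∈ I, tt q = τ k := by
    intro k hk
    have : τ k ∈ TT := by
      rw [hτ k hk]
      exact Finset.orderEmbOfFin_mem TT hTTcard ⟨k, hk⟩
    rw [hTT, Finset.mem_image] at this
    exact this
  have hbetween : ∀ k, ∃ s : ℝ, k + 1 < T → τ k < s ∧ s < τ (k + 1) ∧ φ s < φ (τ k) ∧
      φ s < φ (τ (k + 1)) := by
    intro k
    by_cases hk : k + 1 < T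
    · have hlt : τ k < τ (k + 1) := by
        rw [hτ k (by omega), hτ (k + 1) hk]
        apply e.strictMono
        rw [Fin.lt_def]
        exact Nat.lt_succ_self k
      obtain ⟨q, hq, hqt⟩ := hτmem k (by omega)
      obtain ⟨q', hq', hqt'⟩ := hτmem (k + 1) hk
      obtain ⟨g1, g2⟩ := htt' q hq
      obtain ⟨g1', g2'⟩ := htt' q' hq'
      rw [hqt] at g1 g2
      rw [hqt'] at g1' g2'
      have hne : q ≠ q' := by
        rintro rfl
        rw [hqt] at hqt'
        rw [hqt'] at hlt
        exact lt_irrefl _ hlt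
      have hn1 : (φ (τ (k + 1)), ψ (τ (k + 1))) ∉ tooth a h q.1 q.2 := by
        intro hc
        obtain ⟨e1, e2⟩ := tooth_disj hpos hc g2'
        exact hne (Prod.ext e1 e2)
      have hn2 : (φ (τ k), ψ (τ k)) ∉ tooth a h q'.1 q'.2 := by
        intro hc
        obtain ⟨e1, e2⟩ := tooth_disj hpos g2 hc
        exact hne (Prod.ext e1 e2)
      obtain ⟨s1, hs1, hs1'⟩ := exit_tooth hpos hφ.1 hψ.1 hclose ((hImem q).1 hq).2.1 g1 g1'
        g2 hn1
      obtain ⟨s2, hs2, hs2'⟩ := exit_tooth hpos hφ.1 hψ.1 hclose ((hImem q').1 hq').2.1 g1' g1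
        g2' hn2
      rw [Set.uIcc_of_le hlt.le] at hs1
      rw [Set.uIcc_of_ge hlt.le] at hs2
      have b1 : a + 2 * q.1 * h + h / 2 < φ (τ k) := g2.2.1
      have b2 : a + 2 * q'.1 * h + h / 2 < φ (τ (k + 1)) := g2'.2.1
      have main : ∀ s ∈ Icc (τ k) (τ (k + 1)), φ s < φ (τ k) → φ s < φ (τ (k + 1)) →
          τ k < s ∧ s < τ (k + 1) ∧ φ s < φ (τ k) ∧ φ s < φ (τ (k + 1)) := by
        intro s hs c1 c2
        refine ⟨lt_of_le_of_ne hs.1 ?_, lt_of_le_of_ne hs.2 ?_, c1, c2⟩
        · rintro hc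
          rw [← hc] at c1
          exact lt_irrefl _ c1
        · rintro hc
          rw [hc] at c2
          exact lt_irrefl _ c2
      rcases le_total q.1 q'.1 with hle | hle
      · have hle' : (q.1 : ℝ) ≤ q'.1 := by exact_mod_cast hle
        exact ⟨s1, fun _ => main s1 hs1 (by linarith) (by nlinarith)⟩
      · have hle' : (q'.1 : ℝ) ≤ q.1 := by exact_mod_cast hle
        exact ⟨s2, fun _ => main s2 hs2 (by nlinarith) (by linarith)⟩
    · exact ⟨0, fun h => absurd h hk⟩
  choose σ hσ using hbetween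
  refine pieces_alt hφ τ σ T ?_ hσ
  intro k hk
  obtain ⟨q, hq, hqt⟩ := hτmem k hk
  rw [← hqt]
  exact (htt' q hq).1

/-! ### Asymptotics -/

lemma E_nonneg (n : ℕ) (F : Set (ℝ × ℝ)) : 0 ≤ E n F := by
  apply Real.sInf_nonneg
  rintro _ ⟨γ, _, rfl⟩
  exact Metric.hausdorffDist_nonneg

lemma lower_EZ {a b : ℝ} (hab : a < b) {m n : ℕ} (hm : 1 ≤ m) (hn2 : 2 ≤ n)
    (hn : n < 2 * (m * (2 * m - 1)) - 2) : (b - a) / (2 * m - 1) / 2 ≤ EZ n a b := by
  have hne : (Curves n).Nonempty := by
    have h0 : (fun _ : ℝ => (0 : ℝ)) ∈ Mon n := by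
      refine mon_of_finset (B := {0, 1}) continuousOn_const (by simp) (by simp) ?_ ?_ ?_
      · intro b hb
        rw [Finset.mem_insert, Finset.mem_singleton] at hb
        rcases hb with rfl | rfl <;> simp
      · have : ({0, 1} : Finset ℝ).card ≤ 2 := Finset.card_le_two
        omega
      · intro u _ v _ _ _
        exact Or.inl monotoneOn_const
    exact ⟨_, _, h0, _, h0, rfl⟩
  have h1 : (b - a) / (2 * m - 1) / 2 ≤ E n (comb a b ((b - a) / (2 * m - 1)) m) := by
    refine le_csInf (hne.image _) ?_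
    rintro _ ⟨_, ⟨φ, hφ, ψ, hψ, rfl⟩, rfl⟩
    by_contra hcon
    rw [not_le] at hcon
    have := pieces_lower hab hm hφ hψ hcon
    omega
  refine h1.trans (le_csSup ?_ ⟨_, comb_mem_ZD hab hm, rfl⟩)
  refine ⟨(b - a) / (1 : ℕ) / 2, ?_⟩
  rintro _ ⟨F, hF, rfl⟩
  exact upper_F hab hF 1 n le_rfl (by omega)

lemma upper_EZ {a b : ℝ} (hab : a < b) (p n : ℕ) (hp : 1 ≤ p) (hn : p ^ 2 + 1 ≤ n) :
    EZ n a b ≤ (b - a) / p / 2 := by
  refine csSup_le (Set.Nonempty.image _ ⟨_, comb_mem_ZD hab (m := 1) le_rfl⟩) ?_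
  rintro _ ⟨F, hF, rfl⟩
  exact upper_F hab hF p n hp hn

lemma tendsto_main {a b : ℝ} (hab : a < b) :
    Tendsto (fun n : ℕ => Real.sqrt n * EZ n a b / (b - a)) atTop (𝓝 (1 / 2)) := by
  have hba : 0 < b - a := by linarith
  have hsq : Tendsto (fun n : ℕ => Real.sqrt n) atTop atTop :=
    Real.tendsto_sqrt_atTop.comp tendsto_natCast_atTop_atTop
  have hinv : Tendsto (fun n : ℕ => (Real.sqrt n)⁻¹) atTop (𝓝 0) := hsq.inv_tendsto_atTop
  have hlow : Tendsto (fun n : ℕ => (1 / 2 : ℝ) * (1 + 3 * (Real.sqrt n)⁻¹)⁻¹) atTop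
      (𝓝 (1 / 2)) := by
    have h1 : Tendsto (fun n : ℕ => (1 / 2 : ℝ) * (1 + 3 * (Real.sqrt n)⁻¹)⁻¹) atTop
        (𝓝 ((1 / 2 : ℝ) * (1 + 3 * 0)⁻¹)) :=
      ((hinv.const_mul 3).const_add 1).inv₀ (by norm_num) |>.const_mul _
    simpa using h1
  have hup : Tendsto (fun n : ℕ => (1 / 2 : ℝ) * (1 - (Real.sqrt n)⁻¹)⁻¹) atTop
      (𝓝 (1 / 2)) := by
    have h1 : Tendsto (fun n : ℕ => (1 / 2 : ℝ) * (1 - (Real.sqrt n)⁻¹)⁻¹) atTop
        (𝓝 ((1 / 2 : ℝ) * (1 - 0)⁻¹)) :=
      (hinv.const_sub 1).inv₀ (by norm_num) |>.const_mul _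
    simpa using h1
  refine tendsto_of_tendsto_of_tendsto_of_le_of_le' hlow hup ?_ ?_
  · filter_upwards [eventually_ge_atTop 2] with n hn
    set r := Nat.sqrt n with hr
    have hr1 : n < (r + 1) * (r + 1) := Nat.lt_succ_sqrt n
    set m := r / 2 + 2 with hm
    have hm1 : 1 ≤ m := by omega
    have hbig : n < 2 * (m * (2 * m - 1)) - 2 := by
      have e1 : r + 3 ≤ 2 * m := by omega
      have e2 : r + 2 ≤ 2 * m - 1 := by omega
      have e3 : (r + 3) * (r + 2) ≤ 2 * m * (2 * m - 1) := Nat.mul_le_mul e1 e2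
      have e4 : 2 * (m * (2 * m - 1)) = 2 * m * (2 * m - 1) := by ring
      rw [e4]
      have e5 : (r + 3) * (r + 2) = (r + 1) * (r + 1) + 3 * r + 5 := by ring
      omega
    have h1 := lower_EZ hab hm1 hn hbig
    have hrn : (r : ℝ) ≤ Real.sqrt n := by
      apply Real.le_sqrt_of_sq_le
      have : r * r ≤ n := Nat.sqrt_le n
      rw [sq]
      exact_mod_cast this
    have hspos : 0 < Real.sqrt n := Real.sqrt_pos.2 (by
      have : 0 < n := by omega
      exact_mod_cast this)
    have h2m : (2 * m - 1 : ℝ) ≤ Real.sqrt n + 3 := by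
      have : 2 * m ≤ r + 4 := by omega
      have : (2 * m : ℝ) ≤ r + 4 := by exact_mod_cast this
      linarith
    have h2m0 : (0 : ℝ) < 2 * m - 1 := by
      have : (1 : ℝ) ≤ m := by exact_mod_cast hm1
      linarith
    have e1 : (1 / 2 : ℝ) * (1 + 3 * (Real.sqrt n)⁻¹)⁻¹ =
        Real.sqrt n * ((b - a) / (Real.sqrt n + 3) / 2) / (b - a) := by
      field_simp
    rw [e1]
    apply div_le_div_of_nonneg_right _ hba.le
    apply mul_le_mul_of_nonneg_left _ hspos.le
    refine le_trans ?_ h1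
    apply div_le_div_of_nonneg_right _ (by norm_num)
    exact div_le_div_of_nonneg_left hba.le h2m0 h2m
  · filter_upwards [eventually_ge_atTop 5] with n hn
    set p := Nat.sqrt (n - 1) with hp
    have hp1 : p * p ≤ n - 1 := Nat.sqrt_le (n - 1)
    have hp2 : n - 1 < (p + 1) * (p + 1) := Nat.lt_succ_sqrt (n - 1)
    have hp3 : 1 ≤ p := by
      by_contra hcon
      have : p = 0 := by omega
      rw [this] at hp2
      omega
    have h1 := upper_EZ hab p n hp3 (by rw [sq]; omega)
    have hspos : 0 < Real.sqrt n := Real.sqrt_pos.2 (by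
      have : 0 < n := by omega
      exact_mod_cast this)
    have hs1 : 1 < Real.sqrt n := by
      rw [Real.lt_sqrt (by norm_num)]
      have : 1 < n := by omega
      have : (1 : ℝ) < n := by exact_mod_cast this
      linarith
    have hpn : Real.sqrt n - 1 ≤ p := by
      have : n ≤ (p + 1) * (p + 1) := by omega
      have h2 : (n : ℝ) ≤ (p + 1) ^ 2 := by
        rw [sq]
        exact_mod_cast this
      have h3 : Real.sqrt n ≤ p + 1 := by
        rw [Real.sqrt_le_left (by positivity)]
        exact h2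
      linarith
    have e1 : (1 / 2 : ℝ) * (1 - (Real.sqrt n)⁻¹)⁻¹ =
        Real.sqrt n * ((b - a) / (Real.sqrt n - 1) / 2) / (b - a) := by
      have : Real.sqrt n - 1 ≠ 0 := by linarith
      field_simp
    rw [e1]
    apply div_le_div_of_nonneg_right _ hba.le
    apply mul_le_mul_of_nonneg_left _ hspos.le
    refine h1.trans ?_
    apply div_le_div_of_nonneg_right _ (by norm_num)
    exact div_le_div_of_nonneg_left hba.le (by linarith) hpn

/-- **`c_5 = 1/2`**, and the upper limit defining `c_5` is a limit. -/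
theorem result (a b : ℝ) (hab : a < b) :
    c5 a b = 1 / 2 ∧
      Tendsto (fun n : ℕ => Real.sqrt n * EZ n a b / (b - a)) atTop (𝓝 (1 / 2)) :=
  ⟨(tendsto_main hab).limsup_eq, tendsto_main hab⟩

end Pool.Agent.Results.MP_cc6bdf_an.ConstantHalf
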